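import Pool.Agent.Helper191_Fac.Two

set_option autoImplicit false

namespace Pool.Agent.Helper191_Fac

open MeasureTheory Filter Topology

attribute [local instance] mspace
attribute [local instance] bspace

/-- Almost every point is generic. -/
theorem gen_ae : haar 2 {z : ℤ_[2] | ∀ T, ¬ Gen T z} = 0 := by
  set E : ℕ → Set ℤ_[2] := fun t => ⋃ j ∈ Finset.range (8 * t), ball 2 (-((j : ℤ_[2]) + 1)) t
    with hE
  have hEt : ∀ t, haar 2 (E t) ≤ ENNReal.ofReal (8 * ((t : ℝ) ^ 1 * (1 / 2) ^ t)) := by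
    intro t
    refine (measure_biUnion_finset_le _ _).trans ?_
    rw [Finset.sum_congr rfl (fun (j : ℕ) _ => haar_ball 2 (-((j : ℤ_[2]) + 1)) t)]
    rw [Finset.sum_const, nsmul_eq_mul, Finset.card_range]
    rw [← ENNReal.ofReal_natCast (8 * t), ← ENNReal.ofReal_natCast 2,
      ← ENNReal.ofReal_pow (by norm_num), ← ENNReal.ofReal_inv_of_pos (by positivity),
      ← ENNReal.ofReal_mul (Nat.cast_nonneg _)]
    apply ENNReal.ofReal_le_ofReal
    apply le_of_eq
    push_cast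
    rw [pow_one, one_div, inv_pow]
    ring
  have hsum : ∑' t, haar 2 (E t) ≠ ⊤ := by
    have hs : Summable (fun t : ℕ => 8 * ((t : ℝ) ^ 1 * (1 / 2) ^ t)) :=
      (summable_pow_mul_geometric_of_norm_lt_one 1 (r := (1 / 2 : ℝ)) (by norm_num)).mul_left 8
    exact ne_top_of_le_ne_top hs.tsum_ofReal_ne_top (ENNReal.tsum_le_tsum hEt)
  have h0 := measure_limsup_atTop_eq_zero hsum
  refine measure_mono_null ?_ h0
  intro z hz
  rw [mem_limsup_iff_frequently_mem, frequently_atTop]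
  intro T
  have h1 : ¬ Gen T z := hz T
  unfold Gen at h1
  push Not at h1
  obtain ⟨t, ht, j, hj, hd⟩ := h1
  refine ⟨t, ht, ?_⟩
  rw [hE]
  simp only [Set.mem_iUnion]
  refine ⟨j, Finset.mem_range.mpr hj, ?_⟩
  rw [mem_ball, sub_neg_eq_add]
  exact_mod_cast hd

section Padic
variable (p : ℕ) [hp : Fact p.Prime]

theorem haar_singleton (z : ℤ_[p]) : haar p {z} = 0 := by
  have hsub : ∀ s : ℕ, haar p {z} ≤ ENNReal.ofReal ((1 / p : ℝ) ^ s) := by
    intro s
    have h1 : ({z} : Set ℤ_[p]) ⊆ ball p z s := by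
      intro w hw
      rw [Set.mem_singleton_iff] at hw
      rw [mem_ball, hw, sub_self]
      exact dvd_zero _
    refine (measure_mono h1).trans ?_
    rw [haar_ball, ← ENNReal.ofReal_natCast p, ← ENNReal.ofReal_pow (Nat.cast_nonneg _),
      ← ENNReal.ofReal_inv_of_pos (pow_pos (by exact_mod_cast hp.out.pos) _)]
    apply ENNReal.ofReal_le_ofReal
    rw [one_div, inv_pow]
  have hlim : Tendsto (fun s : ℕ => ENNReal.ofReal ((1 / p : ℝ) ^ s)) atTop (𝓝 0) := by
    have h1 := tendsto_pow_atTop_nhds_zero_of_lt_one (r := (1 / p : ℝ)) (by positivity) (by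
      rw [div_lt_one (by exact_mod_cast hp.out.pos)]
      exact_mod_cast hp.out.one_lt)
    have h2 := ENNReal.tendsto_ofReal h1
    rwa [ENNReal.ofReal_zero] at h2
  exact le_antisymm (ge_of_tendsto hlim (Eventually.of_forall hsub)) zero_le

theorem haar_countable (A : Set ℤ_[p]) (hA : A.Countable) : haar p A = 0 := by
  rw [← Set.biUnion_of_singleton A]
  exact (measure_biUnion_null_iff hA).mpr (fun z _ => haar_singleton p z)

end Padic

theorem dvd_asc_odd (y : ℤ_[2]) (m : ℕ) :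
    (2 : ℤ_[2]) ^ (m + 1) * asc y (m + 1) ∣ asc (2 * y + 1) (2 * m + 1) := by
  induction m with
  | zero =>
    refine ⟨1, ?_⟩
    rw [show 2 * 0 + 1 = 0 + 1 by ring, asc_succ, asc_succ, asc_zero, asc_zero]
    push_cast
    ring
  | succ m ih =>
    have h1 : asc (2 * y + 1) (2 * (m + 1) + 1) = asc (2 * y + 1) (2 * m + 1) *
        (2 * y + 1 + (2 * m + 2)) * (2 * (y + ((m + 1 : ℕ) + 1))) := by
      rw [show 2 * (m + 1) + 1 = (2 * m + 1) + 1 + 1 by ring, asc_succ, asc_succ]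
      push_cast
      ring
    rw [h1, asc_succ y (m + 1), pow_succ]
    obtain ⟨r, hr⟩ := ih
    rw [hr]
    refine ⟨r * (2 * y + 1 + (2 * m + 2)), ?_⟩
    ring

theorem dvd_asc_even (y : ℤ_[2]) (m : ℕ) :
    (2 : ℤ_[2]) ^ (m + 1) * asc y (m + 1) ∣ asc (2 * y) (2 * m + 2) := by
  have h1 : asc (2 * y) (2 * m + 2) = (2 * y + 1) * asc (2 * y + 1) (2 * m + 1) := by
    rw [show 2 * m + 2 = 1 + (2 * m + 1) by ring, asc_add]
    congr 1
    · simp [asc_succ, asc_zero]
  rw [h1]
  exact (dvd_asc_odd y m).mul_left _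

/-- Every nonzero 2-adic integer is a power of two times an odd one. -/
theorem exists_odd_part (z : ℤ_[2]) (hz : z ≠ 0) : ∃ (s : ℕ) (y : ℤ_[2]),
    z = 2 ^ s * (2 * y + 1) := by
  have hspec := PadicInt.unitCoeff_spec hz
  set u := PadicInt.unitCoeff hz with hu
  have h1 : (2 : ℤ_[2]) ∣ (u : ℤ_[2]) - 1 := by
    have h2 := PadicInt.sub_zmodRepr_mem (u : ℤ_[2])
    rw [PadicInt.maximalIdeal_eq_span_p, Ideal.mem_span_singleton] at h2
    have h3 := PadicInt.zmodRepr_lt_p (u : ℤ_[2])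
    have h4 := PadicInt.zmodRepr_units_ne_zero u
    have h5 : (u : ℤ_[2]).zmodRepr = 1 := by omega
    rw [h5] at h2
    exact_mod_cast h2
  obtain ⟨y, hy⟩ := h1
  refine ⟨z.valuation, y, ?_⟩
  rw [← hy, sub_add_cancel, mul_comm]
  exact_mod_cast hspec

/-- The 2-adic order of the products exceeds their length by any prescribed amount, somewhere. -/
theorem exists_excess (L : ℕ) : ∀ z : ℤ_[2], (∀ n : ℕ, z ≠ n) →
    ∃ m : ℕ, (2 : ℤ_[2]) ^ (m + 1 + L) ∣ asc z (m + 1) := by
  have hlift : ∀ (L s : ℕ) (y : ℤ_[2]),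
      (∃ m : ℕ, (2 : ℤ_[2]) ^ (m + 1 + L) ∣ asc y (m + 1)) →
      ∃ m : ℕ, (2 : ℤ_[2]) ^ (m + 1 + L) ∣ asc (2 ^ s * y) (m + 1) := by
    intro L s y
    induction s with
    | zero => intro h; simpa using h
    | succ s ih =>
      intro h
      obtain ⟨m, hm⟩ := ih h
      refine ⟨2 * m + 1, ?_⟩
      have h1 := dvd_asc_even (2 ^ s * y) m
      rw [show (2 : ℤ_[2]) ^ (s + 1) * y = 2 * (2 ^ s * y) by ring,
        show 2 * m + 1 + 1 + L = (m + 1) + (m + 1 + L) by ring,
        show 2 * m + 1 + 1 = 2 * m + 2 by ring, pow_add]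
      exact (mul_dvd_mul_left _ hm).trans h1
  induction L with
  | zero =>
    intro z hz
    have hz0 : z ≠ 0 := by
      have := hz 0
      simpa using this
    obtain ⟨s, y, rfl⟩ := exists_odd_part z hz0
    apply hlift
    refine ⟨0, ?_⟩
    simp only [asc_succ, asc_zero]
    refine ⟨y + 1, ?_⟩
    push_cast
    ring
  | succ L ih =>
    intro z hz
    have hz0 : z ≠ 0 := by
      have := hz 0
      simpa using this
    obtain ⟨s, y, rfl⟩ := exists_odd_part z hz0
    have hy : ∀ n : ℕ, y ≠ n := by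
      intro n hn
      apply hz (2 ^ s * (2 * n + 1))
      rw [hn]
      push_cast
      ring
    obtain ⟨m, hm⟩ := ih y hy
    apply hlift
    refine ⟨2 * m, ?_⟩
    have h1 := dvd_asc_odd y m
    rw [show 2 * m + 1 + (L + 1) = (m + 1) + (m + 1 + L) by ring, pow_add]
    exact (mul_dvd_mul_left _ hm).trans h1

theorem exists_excess_large (z : ℤ_[2]) (hz : ∀ n : ℤ, z ≠ n) (L N : ℕ) :
    ∃ n, N ≤ n ∧ (2 : ℤ_[2]) ^ (n + L) ∣ asc z n := by
  have hne : ∀ n, asc z n ≠ 0 := by
    intro n h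
    unfold asc at h
    rw [Finset.prod_eq_zero_iff] at h
    obtain ⟨j, _, hj⟩ := h
    apply hz (-(j + 1))
    push_cast
    linear_combination hj
  have hV : ∃ V, ∀ n < N, ¬ (2 : ℤ_[2]) ^ V ∣ asc z n := by
    induction N with
    | zero => exact ⟨0, fun n hn => absurd hn (by omega)⟩
    | succ N ih =>
      obtain ⟨V, hV⟩ := ih
      have h1 : ∃ V', ¬ (2 : ℤ_[2]) ^ V' ∣ asc z N := by
        by_contra hcon
        push Not at hcon
        exact hne N (eq_zero_of_forall_pow_dvd 2 _ (by exact_mod_cast hcon))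
      obtain ⟨V', hV'⟩ := h1
      refine ⟨max V V', fun n hn hd => ?_⟩
      rcases Nat.lt_succ_iff_lt_or_eq.mp hn with h | h
      · exact hV n h ((pow_dvd_pow _ (le_max_left _ _)).trans hd)
      · subst h
        exact hV' ((pow_dvd_pow _ (le_max_right _ _)).trans hd)
  obtain ⟨V, hV⟩ := hV
  obtain ⟨m, hm⟩ := exists_excess (V + L) z (fun n => by
    have := hz n
    exact_mod_cast this)
  refine ⟨m + 1, ?_, (pow_dvd_pow _ (by omega)).trans hm⟩
  by_contra hlt
  push Not at hlt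
  exact hV (m + 1) hlt ((pow_dvd_pow _ (by omega)).trans hm)

end Pool.Agent.Helper191_Fac
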