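import Pool.Agent.Helper191_Fac.AE

set_option autoImplicit false

namespace Pool.Agent.Helper191_Fac

open MeasureTheory Filter Topology

section Padic
variable (p : ℕ) [hp : Fact p.Prime]

theorem pow_dvd_asc_of_factorial {g L : ℕ} (h : p ^ L ∣ g.factorial) (y : ℤ_[p]) :
    (p : ℤ_[p]) ^ L ∣ asc y g := by
  have h1 : (p : ℤ_[p]) ^ L ∣ y - y.appr L := by
    have := PadicInt.appr_spec L y
    rwa [Ideal.mem_span_singleton] at this
  have h2 : y - y.appr L ∣ asc y g - asc (y.appr L : ℤ_[p]) g := by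
    have := Polynomial.sub_dvd_eval_sub y (y.appr L : ℤ_[p]) (ascP ℤ_[p] g)
    rwa [eval_ascP, eval_ascP] at this
  have h3 : (p : ℤ_[p]) ^ L ∣ asc (y.appr L : ℤ_[p]) g := by
    rw [asc_nat]
    have h4 : p ^ L ∣ (y.appr L + 1).ascFactorial g := h.trans (Nat.factorial_dvd_ascFactorial _ _)
    have h5 : ((p ^ L : ℕ) : ℤ_[p]) ∣ (((y.appr L + 1).ascFactorial g : ℕ) : ℤ_[p]) :=
      Nat.cast_dvd_cast h4
    exact_mod_cast h5
  exact (dvd_sub_left h3).mp (h1.trans h2)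

theorem pref_finite (X : Set ((ℕ → Bool) × ℤ_[p])) (n : ℕ) : (pref p X n).Finite := Set.toFinite _

theorem pref_le_pow (X : Set ((ℕ → Bool) × ℤ_[p])) (n : ℕ) : (pref p X n).ncard ≤ 2 ^ n := by
  have h := Set.ncard_le_ncard (Set.subset_univ (pref p X n)) (Set.toFinite _)
  rw [Set.ncard_univ, Nat.card_eq_fintype_card] at h
  simpa using h

theorem pref_le_succ (X : Set ((ℕ → Bool) × ℤ_[p])) (n : ℕ) :
    (pref p X n).ncard ≤ (pref p X (n + 1)).ncard := by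
  have h : pref p X n = (fun w : Fin (n + 1) → Bool => fun i : Fin n => w i.castSucc) ''
      (pref p X (n + 1)) := by
    unfold pref
    rw [← Set.image_comp]
    rfl
  rw [h]
  exact Set.ncard_image_le (pref_finite p X (n + 1))

theorem pref_succ_le (X : Set ((ℕ → Bool) × ℤ_[p])) (n : ℕ) :
    (pref p X (n + 1)).ncard ≤ 2 * (pref p X n).ncard := by
  have h : (pref p X (n + 1)).ncard ≤ ((pref p X n) ×ˢ (Set.univ : Set Bool)).ncard := by
    apply Set.ncard_le_ncard_of_injOn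
      (fun w : Fin (n + 1) → Bool => ((fun i : Fin n => w i.castSucc), w (Fin.last n)))
    · rintro _ ⟨x, hx, rfl⟩
      exact ⟨⟨x, hx, rfl⟩, Set.mem_univ _⟩
    · intro w _ w' _ hww
      simp only [Prod.mk.injEq] at hww
      funext i
      rcases Fin.eq_castSucc_or_eq_last i with ⟨j, rfl⟩ | rfl
      · exact congrFun hww.1 j
      · exact hww.2
  rw [Set.ncard_prod, Set.ncard_univ, Nat.card_eq_fintype_card, Fintype.card_bool, mul_comm] at h
  exact h

theorem pref_inj (X : Set ((ℕ → Bool) × ℤ_[p])) (n : ℕ)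
    (h : ∀ x ∈ X, ∀ y ∈ X, (∀ i < n, x.1 i = y.1 i) → x.1 n = y.1 n) :
    (pref p X (n + 1)).ncard ≤ (pref p X n).ncard := by
  apply Set.ncard_le_ncard_of_injOn (fun w : Fin (n + 1) → Bool => fun i : Fin n => w i.castSucc)
  · rintro _ ⟨x, hx, rfl⟩
    exact ⟨x, hx, rfl⟩
  · rintro _ ⟨x, hx, rfl⟩ _ ⟨y, hy, rfl⟩ hxy
    have h1 : ∀ i < n, x.1 i = y.1 i := fun i hi => congrFun hxy ⟨i, hi⟩
    have h2 := h x hx y hy h1
    funext i
    rcases Nat.lt_succ_iff_lt_or_eq.mp i.2 with h3 | h3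
    · exact h1 i h3
    · change x.1 i = y.1 i
      rw [h3]
      exact h2

end Padic

/-- The value attached to a bit. -/
noncomputable def bit (b : Bool) : ℤ_[2] := if b then 1 else 0

theorem S_succ_bit (ε : ℕ → Bool) (n : ℕ) (z : ℤ_[2]) :
    S ε (n + 1) z = S ε n z + bit (ε n) * asc z n := by
  rw [S_succ]
  unfold bit
  split_ifs <;> ring

theorem bit_inj {b b' : Bool} (h : (2 : ℤ_[2]) ∣ bit b - bit b') : b = b' := by
  have h2 : ¬ (2 : ℤ_[2]) ∣ 1 := by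
    intro h
    have := (PadicInt.prime_p (p := 2)).not_isUnit (isUnit_of_dvd_one (by exact_mod_cast h))
    exact this
  unfold bit at h
  rcases b with _ | _ <;> rcases b' with _ | _
  · rfl
  · exfalso
    apply h2
    have := (dvd_neg (a := (2 : ℤ_[2]))).mpr h
    simpa using this
  · exfalso
    apply h2
    simpa using h
  · rfl

/-- The condition forced by divisibility two steps later, at an even place. -/
theorem wit_parity {x : (ℕ → Bool) × ℤ_[2]} (hx : Wit 2 x) {n : ℕ} {X : ℤ_[2]}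
    (hA : asc x.2 n ≠ 0) (hX : S x.1 n x.2 = asc x.2 n * X) (hev : (2 : ℤ_[2]) ∣ x.2 + n) :
    (2 : ℤ_[2]) ∣ X + bit (x.1 n) + bit (x.1 (n + 1)) := by
  have h1 := hx.2 (n + 2)
  rw [S_succ_bit x.1 (n + 1), S_succ_bit, asc_succ x.2 (n + 1), asc_succ, hX] at h1
  have h2 : asc x.2 n * (x.2 + ((n : ℤ_[2]) + 1)) * (x.2 + (((n + 1 : ℕ) : ℤ_[2]) + 1)) =
      asc x.2 n * ((x.2 + ((n : ℤ_[2]) + 1)) * (x.2 + (((n + 1 : ℕ) : ℤ_[2]) + 1))) := by ring
  have h3 : asc x.2 n * X + bit (x.1 n) * asc x.2 n +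
      bit (x.1 (n + 1)) * (asc x.2 n * (x.2 + ((n : ℤ_[2]) + 1))) =
      asc x.2 n * (X + bit (x.1 n) + bit (x.1 (n + 1)) * (x.2 + ((n : ℤ_[2]) + 1))) := by ring
  rw [h2, h3] at h1
  have h4 := (mul_dvd_mul_iff_left hA).mp h1
  have h5 : (2 : ℤ_[2]) ∣ (x.2 + (((n + 1 : ℕ) : ℤ_[2]) + 1)) := by
    have : (x.2 + (((n + 1 : ℕ) : ℤ_[2]) + 1)) = (x.2 + n) + 2 := by
      push_cast
      ring
    rw [this]
    exact dvd_add hev (dvd_refl _)
  have h6 := (h5.mul_left (x.2 + ((n : ℤ_[2]) + 1))).trans h4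
  have h7 : X + bit (x.1 n) + bit (x.1 (n + 1)) =
      (X + bit (x.1 n) + bit (x.1 (n + 1)) * (x.2 + ((n : ℤ_[2]) + 1))) -
      (x.2 + n) * bit (x.1 (n + 1)) := by ring
  rw [h7]
  exact dvd_sub h6 (hev.mul_right _)

/-- The sets of pairs used for the prime two. -/
def XX (κ m c T : ℕ) : Set ((ℕ → Bool) × ℤ_[2]) :=
  {x | Piece 2 4 3 (κ + 1) m c x ∧ Gen T x.2 ∧ ∀ n : ℤ, x.2 ≠ n}

theorem XX_close {κ m c T n : ℕ} {x y : (ℕ → Bool) × ℤ_[2]} (hx : x ∈ XX κ m c T)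
    (hy : y ∈ XX κ m c T) (hn : m ≤ n) (hxy : ∀ i < n, x.1 i = y.1 i) :
    (2 : ℤ_[2]) ^ (3 * (n / 4 - κ) - m) ∣ y.2 - x.2 := by
  have h1 := hx.1.2.1 κ (Nat.lt_succ_self κ) n
  have h2 := hy.1.2.1 κ (Nat.lt_succ_self κ) n
  rw [← pow_mul] at h1 h2
  have := piece_close 2 hx.1 hy.1 hn hxy h1 h2
  exact_mod_cast this

theorem XX_parity {κ m c T n : ℕ} (hκ : 1 ≤ κ) {x y : (ℕ → Bool) × ℤ_[2]}
    (hx : x ∈ XX κ m c T) (hy : y ∈ XX κ m c T) (hn : 40 + 16 * κ + 6 * m + 8 * T ≤ n)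
    (hev : (2 : ℤ_[2]) ∣ x.2 + n) (hxy : ∀ i < n + 1, x.1 i = y.1 i) :
    x.1 (n + 1) = y.1 (n + 1) := by
  have hxy' : ∀ i < n, x.1 i = y.1 i := fun i hi => hxy i (by omega)
  have hP := XX_close hx hy (by omega) hxy'
  obtain ⟨r, hr⟩ := D_step x.1 0 n x.2 (y.2 - x.2)
  rw [add_sub_cancel, D_zero, D_zero, S_congr hxy'] at hr
  have hD1 : (2 : ℤ_[2]) ^ (3 * (n / 4 - 1)) ∣ D x.1 1 n x.2 := by
    have := hx.1.2.1 1 (by omega) n
    rw [← pow_mul] at this
    exact_mod_cast this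
  have hA : asc x.2 n ≠ 0 := hx.2.1.asc_ne_zero (by omega)
  have hA2 : asc x.2 n ∣ (2 : ℤ_[2]) ^ (n + n / 8 + 4) := asc_dvd_pow hx.2.1 (by omega)
  obtain ⟨w, hw⟩ := hx.2.1.pert (z' := y.2) (n := n) (by omega)
    ((pow_dvd_pow _ (by omega)).trans hP)
  have hE : asc x.2 n * 2 ∣ (y.2 - x.2) * (((0 + 1 : ℕ) : ℤ_[2]) * D x.1 (0 + 1) n x.2 +
      (y.2 - x.2) * r) := by
    have h1 : (2 : ℤ_[2]) ^ (n + n / 8 + 5) ∣
        (y.2 - x.2) * (((0 + 1 : ℕ) : ℤ_[2]) * D x.1 (0 + 1) n x.2 + (y.2 - x.2) * r) := by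
      have h2 : (2 : ℤ_[2]) ^ (n + n / 8 + 5) ∣ 2 ^ (3 * (n / 4 - κ) - m) *
          2 ^ (3 * (n / 4 - κ) - m) := by
        rw [← pow_add]
        exact pow_dvd_pow _ (by omega)
      refine h2.trans (mul_dvd_mul hP ?_)
      apply dvd_add
      · apply Dvd.dvd.mul_left
        exact (pow_dvd_pow _ (by omega)).trans hD1
      · exact hP.mul_right _
    refine dvd_trans ?_ h1
    rw [show (2 : ℤ_[2]) ^ (n + n / 8 + 5) = 2 ^ (n + n / 8 + 4) * 2 by rw [← pow_succ]]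
    exact mul_dvd_mul_right hA2 2
  obtain ⟨X, hX⟩ := hx.1.1.2 n
  obtain ⟨X', hX'⟩ := hy.1.1.2 n
  obtain ⟨q, hq⟩ := hE
  have hXX : (1 + 2 * w) * X' = X + 2 * q := by
    apply mul_left_cancel₀ hA
    rw [hX, hX', hw, hq] at hr
    linear_combination hr
  have hA' : asc y.2 n ≠ 0 := hy.2.1.asc_ne_zero (by omega)
  have hev' : (2 : ℤ_[2]) ∣ y.2 + n := by
    have h1 : (2 : ℤ_[2]) ∣ y.2 - x.2 := by
      refine dvd_trans ?_ hP
      exact dvd_pow_self _ (by omega)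
    have h2 : y.2 + n = (y.2 - x.2) + (x.2 + n) := by ring
    rw [h2]
    exact dvd_add h1 hev
  have h1 := wit_parity hx.1.1 hA hX hev
  have h2 := wit_parity hy.1.1 hA' hX' hev'
  rw [← hxy n (by omega)] at h2
  apply bit_inj
  have h3 : bit (x.1 (n + 1)) - bit (y.1 (n + 1)) =
      (X + bit (x.1 n) + bit (x.1 (n + 1))) - (X' + bit (x.1 n) + bit (y.1 (n + 1))) +
      2 * (q - w * X') := by
    linear_combination hXX
  rw [h3]
  exact dvd_add (dvd_sub h1 h2) (Dvd.intro _ rfl)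

theorem factorial_four : 2 ^ 3 ∣ (4 : ℕ).factorial := by decide

/-- Pairs of order at least two project to a null set. -/
theorem XX_null_high {κ m c T : ℕ} (hκ : 1 ≤ κ) : haar 2 (Prod.snd '' XX κ m c T) = 0 := by
  rcases Nat.eq_zero_or_pos m with hm | hm
  · have : XX κ m c T = ∅ := by
      rw [Set.eq_empty_iff_forall_notMem]
      intro x hx
      have := hx.1.2.2.1 m le_rfl
      rw [hm] at this
      exact this (by simp)
    rw [this, Set.image_empty, measure_empty]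
  set b := c % 2 with hb
  set q0 := 40 + 16 * κ + 6 * m + 8 * T with hq0
  have hstep : ∀ n, q0 ≤ n → n % 2 = b →
      (pref 2 (XX κ m c T) (n + 2)).ncard ≤ 2 * (pref 2 (XX κ m c T) n).ncard := by
    intro n hn hnb
    refine (pref_inj 2 _ (n + 1) ?_).trans (pref_succ_le 2 _ n)
    intro x hx y hy hxy
    refine XX_parity hκ hx hy hn ?_ hxy
    have h1 : (2 : ℤ_[2]) ∣ x.2 - c := by
      refine dvd_trans ?_ hx.1.2.2.2
      exact_mod_cast dvd_pow_self (2 : ℤ_[2]) hm.ne'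
    have h2 : (2 : ℤ_[2]) ∣ ((c + n : ℕ) : ℤ_[2]) := by
      have : 2 ∣ c + n := by omega
      exact_mod_cast Nat.cast_dvd_cast (α := ℤ_[2]) this
    have h3 : x.2 + n = (x.2 - c) + ((c + n : ℕ) : ℤ_[2]) := by
      push_cast
      ring
    rw [h3]
    exact dvd_add h1 h2
  have hstep4 : ∀ q, q0 ≤ q → (pref 2 (XX κ m c T) (4 * (q + 1) + b)).ncard ≤
      4 * (pref 2 (XX κ m c T) (4 * q + b)).ncard := by
    intro q hq
    have h1 := hstep (4 * q + b) (by omega) (by omega)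
    have h2 := hstep (4 * q + b + 2) (by omega) (by omega)
    rw [show 4 * (q + 1) + b = 4 * q + b + 2 + 2 by ring]
    omega
  have hgrow : ∀ q, (pref 2 (XX κ m c T) (4 * q + b)).ncard ≤ 2 ^ (4 * q0 + 1) * 4 ^ q := by
    have hsmall : ∀ q, q ≤ q0 → (pref 2 (XX κ m c T) (4 * q + b)).ncard ≤
        2 ^ (4 * q0 + 1) * 4 ^ q := by
      intro q hq
      refine (pref_le_pow 2 _ _).trans ?_
      calc 2 ^ (4 * q + b) ≤ 2 ^ (4 * q0 + 1) := Nat.pow_le_pow_right (by norm_num) (by omega)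
        _ ≤ 2 ^ (4 * q0 + 1) * 4 ^ q := Nat.le_mul_of_pos_right _ (by positivity)
    intro q
    induction q with
    | zero => exact hsmall 0 (by omega)
    | succ q ih =>
      by_cases hq : q0 ≤ q
      · refine (hstep4 q hq).trans ?_
        rw [pow_succ]
        calc 4 * (pref 2 (XX κ m c T) (4 * q + b)).ncard ≤ 4 * (2 ^ (4 * q0 + 1) * 4 ^ q) := by
              omega
          _ = 2 ^ (4 * q0 + 1) * (4 ^ q * 4) := by ring
      · exact hsmall (q + 1) (by omega)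
  apply null_of_growth 2 (g := 4) (L := 3) (by norm_num) (fun x hx => hx.1)
    ((2 : ℝ) ^ (4 * q0 + 1)) 4 (by norm_num) (by norm_num)
  intro q
  have h1 : (pref 2 (XX κ m c T) (4 * q)).ncard ≤ 2 ^ (4 * q0 + 1) * 4 ^ q := by
    refine le_trans ?_ (hgrow q)
    have hb2 : b = 0 ∨ b = 1 := by omega
    rcases hb2 with h | h
    · rw [h, add_zero]
    · rw [h]
      exact pref_le_succ 2 _ _
  exact_mod_cast h1

/-- Pairs of order one project to a null set. -/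
theorem XX_null_one {m c T : ℕ} : haar 2 (Prod.snd '' XX 0 m c T) = 0 := by
  have key : ∀ L' : ℕ, haar 2 (Prod.snd '' XX 0 m c T) ≤ ((2 : ENNReal) ^ L')⁻¹ := by
    intro L'
    apply tree_null
    intro x hx
    obtain ⟨n, hn, hd⟩ := exists_excess_large x.2 hx.2.2 (L' + m) (40 + 6 * m + 8 * T)
    refine ⟨n, ?_⟩
    have hsub : Prod.snd '' {y | y ∈ XX 0 m c T ∧ ∀ i < n, y.1 i = x.1 i} ⊆
        ball 2 x.2 (n + L') := by
      rintro _ ⟨y, ⟨hy, hyx⟩, rfl⟩
      rw [mem_ball]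
      have hxy : ∀ i < n, x.1 i = y.1 i := fun i hi => (hyx i hi).symm
      have hP := XX_close hx hy (by omega) hxy
      obtain ⟨w, hw⟩ := hx.2.1.pert (z' := y.2) (n := n) (by omega)
        ((pow_dvd_pow _ (by omega)).trans hP)
      have h1 : (2 : ℤ_[2]) ^ (n + (L' + m)) ∣ D x.1 0 n x.2 := by
        rw [D_zero]
        exact hd.trans (hx.1.1.2 n)
      have h2 : (2 : ℤ_[2]) ^ (n + (L' + m)) ∣ D y.1 0 n y.2 := by
        rw [D_zero]
        refine dvd_trans ?_ (hy.1.1.2 n)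
        rw [hw]
        exact hd.mul_right _
      have h3 := piece_close 2 hx.1 hy.1 (P := n + (L' + m)) (by omega) hxy
        (by exact_mod_cast h1) (by exact_mod_cast h2)
      have h4 : n + (L' + m) - m = n + L' := by omega
      rwa [h4] at h3
    refine (measure_mono hsub).trans ?_
    rw [haar_ball]
    apply le_of_eq
    push_cast
    rw [pow_add, ENNReal.mul_inv (Or.inl (by simp)) (Or.inl (by simp)), mul_comm]
  have hlim : Tendsto (fun s : ℕ => ENNReal.ofReal ((1 / 2 : ℝ) ^ s)) atTop (𝓝 0) := by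
    have h1 := tendsto_pow_atTop_nhds_zero_of_lt_one (r := (1 / 2 : ℝ)) (by norm_num) (by norm_num)
    have h2 := ENNReal.tendsto_ofReal h1
    rwa [ENNReal.ofReal_zero] at h2
  refine le_antisymm (ge_of_tendsto hlim (Eventually.of_forall fun s => ?_)) zero_le
  refine (key s).trans (le_of_eq ?_)
  rw [one_div, inv_pow, ENNReal.ofReal_inv_of_pos (by positivity), ENNReal.ofReal_pow (by norm_num)]
  norm_num

/-- For the prime two, the second entries of witness pairs form a null set. -/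
theorem two_null : haar 2 {z : ℤ_[2] | ∃ ε, Wit 2 (ε, z)} = 0 := by
  have hsub : {z : ℤ_[2] | ∃ ε, Wit 2 (ε, z)} ⊆
      ({z : ℤ_[2] | ∀ T, ¬ Gen T z} ∪ Set.range (fun n : ℤ => (n : ℤ_[2]))) ∪
      ⋃ κ : ℕ, ⋃ m : ℕ, ⋃ c : ℕ, ⋃ T : ℕ, Prod.snd '' XX κ m c T := by
    rintro z ⟨ε, hε⟩
    by_cases h1 : ∀ T, ¬ Gen T z
    · exact Or.inl (Or.inl h1)
    by_cases h2 : z ∈ Set.range (fun n : ℤ => (n : ℤ_[2]))
    · exact Or.inl (Or.inr h2)
    right
    push Not at h1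
    obtain ⟨T, hT⟩ := h1
    obtain ⟨k, m, c, hk, hp⟩ := exists_piece 2 4 3 (by norm_num) (by norm_num)
      (pow_dvd_asc_of_factorial 2 factorial_four) (ε, z) hε
    simp only [Set.mem_iUnion]
    refine ⟨k - 1, m, c, T, (ε, z), ⟨?_, hT, fun n hn => h2 ⟨n, hn.symm⟩⟩, rfl⟩
    rwa [Nat.sub_add_cancel hk]
  refine measure_mono_null hsub ?_
  rw [measure_union_null_iff, measure_union_null_iff]
  refine ⟨⟨gen_ae, haar_countable 2 _ (Set.countable_range _)⟩, ?_⟩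
  simp only [measure_iUnion_null_iff]
  intro κ m c T
  rcases Nat.eq_zero_or_pos κ with h | h
  · subst h
    exact XX_null_one
  · exact XX_null_high h

end Pool.Agent.Helper191_Fac
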