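import Pool.Agent.Helper191_Fac.Two

set_option autoImplicit false

namespace Pool.Agent.Helper191_Fac

open MeasureTheory Filter Topology

section Padic
variable (p : ℕ) [hp : Fact p.Prime]

theorem dvd_iff_norm_le (a b : ℤ_[p]) : a ∣ b ↔ ‖b‖ ≤ ‖a‖ := by
  constructor
  · rintro ⟨c, rfl⟩
    rw [norm_mul]
    exact mul_le_of_le_one_right (norm_nonneg _) (PadicInt.norm_le_one c)
  · intro h
    by_cases ha : a = 0
    · subst ha
      rw [norm_zero] at h
      rw [norm_le_zero_iff.mp h]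
    · have ha' : (a : ℚ_[p]) ≠ 0 := by
        intro h0
        exact ha (Subtype.ext h0)
      have hq : ‖(b : ℚ_[p]) / (a : ℚ_[p])‖ ≤ 1 := by
        rw [norm_div, div_le_one (norm_pos_iff.mpr ha')]
        exact h
      refine ⟨⟨(b : ℚ_[p]) / (a : ℚ_[p]), hq⟩, Subtype.ext ?_⟩
      change (b : ℚ_[p]) = (a : ℚ_[p]) * ((b : ℚ_[p]) / (a : ℚ_[p]))
      field_simp

theorem continuous_asc (n : ℕ) : Continuous (fun z : ℤ_[p] => asc z n) := by
  unfold asc
  fun_prop

theorem continuous_S (n : ℕ) :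
    Continuous (fun x : (ℕ → Bool) × ℤ_[p] => S x.1 n x.2) := by
  unfold S
  apply continuous_finsetSum
  intro i _
  have h1 : (fun x : (ℕ → Bool) × ℤ_[p] => if x.1 i = true then asc x.2 i else 0) =
      (fun x : (ℕ → Bool) × ℤ_[p] => (fun b : Bool => if b = true then (1 : ℤ_[p]) else 0) (x.1 i) *
        asc x.2 i) := by
    funext x
    split_ifs <;> simp_all
  rw [h1]
  have h2 : Continuous (fun b : Bool => if b = true then (1 : ℤ_[p]) else 0) :=
    continuous_of_discreteTopology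
  have h3 : Continuous (fun x : (ℕ → Bool) × ℤ_[p] => x.1 i) :=
    (continuous_apply i).comp continuous_fst
  apply Continuous.mul
  · exact h2.comp h3
  · exact (continuous_asc p i).comp continuous_snd

theorem isClosed_wit (𝒯 : Set (ℕ → Bool)) (h𝒯 : IsClosed 𝒯) :
    IsClosed {x : (ℕ → Bool) × ℤ_[p] | x.1 ∈ 𝒯 ∧ Wit p x} := by
  have h1 : {x : (ℕ → Bool) × ℤ_[p] | x.1 ∈ 𝒯 ∧ Wit p x} =
      {x | x.1 ∈ 𝒯} ∩ ({x | x.1 0 = true} ∩ ⋂ n, {x | ‖S x.1 n x.2‖ ≤ ‖asc x.2 n‖}) := by
    ext x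
    simp only [Wit, Set.mem_ofPred_eq, Set.mem_inter_iff, Set.mem_iInter, dvd_iff_norm_le]
  rw [h1]
  refine (h𝒯.preimage continuous_fst).inter (IsClosed.inter ?_ (isClosed_iInter fun n => ?_))
  · exact isClosed_eq ((continuous_apply 0).comp continuous_fst) continuous_const
  · exact isClosed_le (continuous_S p n).norm ((continuous_asc p n).comp continuous_snd).norm

theorem isCompact_proj (𝒯 : Set (ℕ → Bool)) (h𝒯 : IsClosed 𝒯) :
    IsCompact {z : ℤ_[p] | ∃ ε ∈ 𝒯, Wit p (ε, z)} := by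
  have h1 : {z : ℤ_[p] | ∃ ε ∈ 𝒯, Wit p (ε, z)} =
      Prod.snd '' {x : (ℕ → Bool) × ℤ_[p] | x.1 ∈ 𝒯 ∧ Wit p x} := by
    ext z
    constructor
    · rintro ⟨ε, h1, h2⟩
      exact ⟨(ε, z), ⟨h1, h2⟩, rfl⟩
    · rintro ⟨x, ⟨h1, h2⟩, rfl⟩
      exact ⟨x.1, h1, h2⟩
  rw [h1]
  exact (isClosed_wit p 𝒯 h𝒯).isCompact.image continuous_snd

/-- The indicator sequence of the values of `u`, counted from `u 0`. -/
noncomputable def ind (u : ℕ → ℕ) (i : ℕ) : Bool := by
  classical
  exact decide (∃ j, u j = u 0 + i)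

theorem ind_iff (u : ℕ → ℕ) (i : ℕ) : ind u i = true ↔ ∃ j, u j = u 0 + i := by
  unfold ind
  simp

theorem factorial_mul_asc (a i : ℕ) :
    ((a.factorial : ℕ) : ℤ_[p]) * asc (a : ℤ_[p]) i = (((a + i).factorial : ℕ) : ℤ_[p]) := by
  rw [asc_nat]
  exact_mod_cast congrArg (Nat.cast (R := ℤ_[p])) (Nat.factorial_mul_ascFactorial a i)

/-- A sum over the first values of `u` splits at `u 0 + n`. -/
theorem sum_split (u : ℕ → ℕ) (hu : StrictMono u) (n K : ℕ) (hK : u 0 + n ≤ K) :
    ∃ M : ℕ, ∑ j ∈ Finset.range K, (u j).factorial =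
      (∑ i ∈ Finset.range n, if ind u i then (u 0 + i).factorial else 0) +
      (u 0 + n).factorial * M := by
  classical
  have hge : ∀ j, j ≤ u j := hu.id_le
  have h1 : ∑ j ∈ Finset.range K, (u j).factorial =
      (∑ j ∈ (Finset.range K).filter (fun j => u j < u 0 + n), (u j).factorial) +
      ∑ j ∈ (Finset.range K).filter (fun j => ¬ u j < u 0 + n), (u j).factorial :=
    (Finset.sum_filter_add_sum_filter_not _ _ _).symm
  have h2 : ∑ j ∈ (Finset.range K).filter (fun j => u j < u 0 + n), (u j).factorial =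
      ∑ i ∈ Finset.range n, if ind u i then (u 0 + i).factorial else 0 := by
    rw [← Finset.sum_filter]
    apply Finset.sum_nbij (fun j => u j - u 0)
    · intro j hj
      rw [Finset.mem_filter] at hj ⊢
      have h3 : u 0 ≤ u j := hu.monotone (Nat.zero_le j)
      refine ⟨Finset.mem_range.mpr (by omega), ?_⟩
      rw [ind_iff]
      exact ⟨j, by omega⟩
    · intro j _ j' _ hjj
      have h3 : u 0 ≤ u j := hu.monotone (Nat.zero_le j)
      have h4 : u 0 ≤ u j' := hu.monotone (Nat.zero_le j')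
      apply hu.injective
      have : u j - u 0 = u j' - u 0 := hjj
      omega
    · intro i hi
      rw [Finset.mem_coe, Finset.mem_filter, Finset.mem_range, ind_iff] at hi
      obtain ⟨hi, j, hj⟩ := hi
      refine ⟨j, ?_, ?_⟩
      · rw [Finset.mem_coe, Finset.mem_filter, Finset.mem_range]
        have := hge j
        omega
      · change u j - u 0 = i
        omega
    · intro j _
      have h3 : u 0 ≤ u j := hu.monotone (Nat.zero_le j)
      rw [Nat.add_sub_cancel' h3]
  have h3 : (u 0 + n).factorial ∣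
      ∑ j ∈ (Finset.range K).filter (fun j => ¬ u j < u 0 + n), (u j).factorial := by
    apply Finset.dvd_sum
    intro j hj
    rw [Finset.mem_filter] at hj
    exact Nat.factorial_dvd_factorial (by omega)
  obtain ⟨M, hM⟩ := h3
  exact ⟨M, by rw [h1, h2, hM]⟩

/-- A sequence as in the problem gives a witness pair. -/
theorem wit_of_seq (u : ℕ → ℕ) (hu : StrictMono u)
    (ht : Tendsto (fun n => padicValNat p (∑ i ∈ Finset.range (n + 1), (u i).factorial))
      atTop atTop) : Wit p (ind u, ((u 0 : ℕ) : ℤ_[p])) := by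
  refine ⟨?_, fun n => ?_⟩
  · change ind u 0 = true
    rw [ind_iff]
    exact ⟨0, rfl⟩
  · change asc ((u 0 : ℕ) : ℤ_[p]) n ∣ S (ind u) n ((u 0 : ℕ) : ℤ_[p])
    set F := (((u 0 + n).factorial : ℕ) : ℤ_[p]) with hF
    have hFne : F ≠ 0 := by
      rw [hF]
      exact_mod_cast (u 0 + n).factorial_ne_zero
    obtain ⟨V, hV⟩ : ∃ V, ¬ (p : ℤ_[p]) ^ V ∣ F := by
      by_contra hcon
      push Not at hcon
      exact hFne (eq_zero_of_forall_pow_dvd p _ hcon)
    have hFV := dvd_pow_of_not_dvd p hV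
    obtain ⟨N, hN⟩ := (tendsto_atTop.mp ht V).exists_forall_of_atTop
    set K := max N (u 0 + n) with hK
    have h1 := hN K (le_max_left _ _)
    obtain ⟨M, hM⟩ := sum_split u hu n (K + 1) (by omega)
    have h2 : p ^ V ∣ ∑ i ∈ Finset.range (K + 1), (u i).factorial :=
      (pow_dvd_pow p h1).trans pow_padicValNat_dvd
    rw [hM] at h2
    have h3 : (p : ℤ_[p]) ^ V ∣
        (∑ i ∈ Finset.range n, if ind u i then (((u 0 + i).factorial : ℕ) : ℤ_[p]) else 0) +
        F * M := by
      have h4 := Nat.cast_dvd_cast (α := ℤ_[p]) h2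
      rw [Nat.cast_add, Nat.cast_mul, Nat.cast_sum, Nat.cast_pow] at h4
      convert h4 using 2
      apply Finset.sum_congr rfl
      intro i _
      split_ifs
      · rfl
      · simp
    have h5 : F ∣ ∑ i ∈ Finset.range n,
        if ind u i then (((u 0 + i).factorial : ℕ) : ℤ_[p]) else 0 :=
      (dvd_add_left (Dvd.intro _ rfl)).mp (hFV.trans h3)
    have h6 : (∑ i ∈ Finset.range n,
        if ind u i then (((u 0 + i).factorial : ℕ) : ℤ_[p]) else 0) =
        (((u 0).factorial : ℕ) : ℤ_[p]) * S (ind u) n ((u 0 : ℕ) : ℤ_[p]) := by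
      unfold S
      rw [Finset.mul_sum]
      apply Finset.sum_congr rfl
      intro i _
      split_ifs
      · exact (factorial_mul_asc p (u 0) i).symm
      · rw [mul_zero]
    rw [h6, hF, ← factorial_mul_asc] at h5
    have h7 : (((u 0).factorial : ℕ) : ℤ_[p]) ≠ 0 := by
      exact_mod_cast (u 0).factorial_ne_zero
    exact (mul_dvd_mul_iff_left h7).mp h5

end Padic

end Pool.Agent.Helper191_Fac
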