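import Pool.Agent.Helper191_Fac.Count
import Pool.Agent.Helper191_Fac.Seq

set_option autoImplicit false

namespace Pool.Agent.Helper191_Fac

open MeasureTheory Filter Topology

attribute [local instance] mspace
attribute [local instance] bspace

open Classical in
/-- Passage from a compact null set of starting points to a count of positive integers. -/
theorem density_of_subset (p : ℕ) [hp : Fact p.Prime] (K : Set ℤ_[p]) (hK : IsCompact K)
    (h0 : haar p K = 0) (A : Set ℕ) (hA : ∀ a ∈ A, ((a : ℕ) : ℤ_[p]) ∈ K) :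
    Tendsto (fun N : ℕ => ((({a : ℕ | 1 ≤ a ∧ a ≤ N ∧ a ∈ A}).ncard : ℕ) : ℝ) / N)
      atTop (𝓝 0) := by
  have h1 := density_zero p K hK h0
  refine squeeze_zero (fun N => by positivity) (fun N => ?_) h1
  have h2 : ({a : ℕ | 1 ≤ a ∧ a ≤ N ∧ a ∈ A}).ncard ≤
      ((Finset.Icc 1 N).filter (fun a => ((a : ℕ) : ℤ_[p]) ∈ K)).card := by
    rw [← Set.ncard_coe_finset]
    apply Set.ncard_le_ncard
    · rintro a ⟨ha1, ha2, ha3⟩
      rw [Finset.mem_coe, Finset.mem_filter, Finset.mem_Icc]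
      exact ⟨⟨ha1, ha2⟩, hA a ha3⟩
    · exact Finset.finite_toSet _
  gcongr

theorem two_density :
    Tendsto (fun N : ℕ => ((({a : ℕ | 1 ≤ a ∧ a ≤ N ∧ ∃ u : ℕ → ℕ, StrictMono u ∧ u 0 = a ∧
      Tendsto (fun n => padicValNat 2 (∑ i ∈ Finset.range (n + 1), (u i).factorial))
        atTop atTop}).ncard : ℕ) : ℝ) / N) atTop (𝓝 0) := by
  have hK := isCompact_proj 2 Set.univ isClosed_univ
  have h0 : haar 2 {z : ℤ_[2] | ∃ ε ∈ (Set.univ : Set (ℕ → Bool)), Wit 2 (ε, z)} = 0 := by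
    refine measure_mono_null ?_ two_null
    rintro z ⟨ε, _, h⟩
    exact ⟨ε, h⟩
  exact density_of_subset 2 _ hK h0
    {a : ℕ | ∃ u : ℕ → ℕ, StrictMono u ∧ u 0 = a ∧
      Tendsto (fun n => padicValNat 2 (∑ i ∈ Finset.range (n + 1), (u i).factorial))
        atTop atTop} (by
      rintro a ⟨u, hu, hua, ht⟩
      refine ⟨ind u, Set.mem_univ _, ?_⟩
      rw [← hua]
      exact wit_of_seq 2 u hu ht)

end Pool.Agent.Helper191_Fac
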