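import Pool.Agent.Helper191_Fac.Order

set_option autoImplicit false

namespace Pool.Agent.Helper191_Fac

open MeasureTheory Filter Topology

section Padic
variable (p : ℕ) [hp : Fact p.Prime]

/-- The Borel sigma-algebra on the p-adic integers. -/
@[reducible] noncomputable def mspace : MeasurableSpace ℤ_[p] := borel _

attribute [local instance] mspace

theorem bspace : BorelSpace ℤ_[p] := ⟨rfl⟩

attribute [local instance] bspace

/-- The normalised Haar measure on the p-adic integers. -/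
noncomputable def haar : Measure ℤ_[p] := Measure.addHaarMeasure ⊤

instance haar_inv : (haar p).IsAddLeftInvariant := by
  unfold haar
  infer_instance

theorem haar_univ : haar p Set.univ = 1 := by
  have := Measure.addHaarMeasure_self (K₀ := (⊤ : TopologicalSpace.PositiveCompacts ℤ_[p]))
  simpa [haar] using this

instance haar_prob : IsProbabilityMeasure (haar p) := ⟨haar_univ p⟩

/-- The residue ball of radius `p ^ (-s)` around `c`. -/
def ball (c : ℤ_[p]) (s : ℕ) : Set ℤ_[p] := {z | (p : ℤ_[p]) ^ s ∣ z - c}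

theorem mem_ball {c z : ℤ_[p]} {s : ℕ} : z ∈ ball p c s ↔ (p : ℤ_[p]) ^ s ∣ z - c := Iff.rfl

theorem ball_eq_closedBall (c : ℤ_[p]) (s : ℕ) :
    ball p c s = Metric.closedBall c ((p : ℝ) ^ (-(s : ℤ))) := by
  ext z
  rw [mem_ball, Metric.mem_closedBall, dist_eq_norm, PadicInt.norm_le_pow_iff_mem_span_pow,
    Ideal.mem_span_singleton]

theorem ball_meas (c : ℤ_[p]) (s : ℕ) : MeasurableSet (ball p c s) := by
  rw [ball_eq_closedBall]
  exact Metric.isClosed_closedBall.measurableSet

theorem haar_ball_eq_zero_ball (c : ℤ_[p]) (s : ℕ) : haar p (ball p c s) = haar p (ball p 0 s) := by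
  have h := measure_preimage_add (haar p) (-c) (ball p 0 s)
  rw [← h]
  congr 1
  ext z
  rw [Set.mem_preimage, mem_ball, mem_ball, sub_zero, neg_add_eq_sub]

theorem ball_disjoint {s a b : ℕ} (ha : a < p ^ s) (hb : b < p ^ s) (hab : a ≠ b) :
    Disjoint (ball p (a : ℤ_[p]) s) (ball p (b : ℤ_[p]) s) := by
  rw [Set.disjoint_left]
  intro z hza hzb
  apply hab
  rw [mem_ball] at hza hzb
  have h := dvd_sub hza hzb
  rw [sub_sub_sub_cancel_left] at h
  have h2 : (p : ℤ_[p]) ^ s ∣ (((b : ℤ) - (a : ℤ) : ℤ) : ℤ_[p]) := by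
    push_cast
    exact h
  rw [PadicInt.pow_p_dvd_int_iff] at h2
  have h3 : a ≡ b [MOD p ^ s] := by
    rw [Nat.modEq_iff_dvd]
    push_cast
    exact h2
  have := h3
  unfold Nat.ModEq at this
  rwa [Nat.mod_eq_of_lt ha, Nat.mod_eq_of_lt hb] at this

theorem univ_eq_union (s : ℕ) :
    (Set.univ : Set ℤ_[p]) = ⋃ c ∈ Finset.range (p ^ s), ball p (c : ℤ_[p]) s := by
  symm
  rw [Set.eq_univ_iff_forall]
  intro z
  simp only [Set.mem_iUnion]
  refine ⟨z.appr s, Finset.mem_range.mpr (PadicInt.appr_lt z s), ?_⟩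
  have := PadicInt.appr_spec s z
  rwa [Ideal.mem_span_singleton] at this

theorem haar_union (s : ℕ) (R : Finset ℕ) (hR : ∀ c ∈ R, c < p ^ s) :
    haar p (⋃ c ∈ R, ball p (c : ℤ_[p]) s) = (R.card : ENNReal) * haar p (ball p 0 s) := by
  rw [measure_biUnion_finset]
  · rw [Finset.sum_congr rfl (fun (c : ℕ) _ => haar_ball_eq_zero_ball p (c : ℤ_[p]) s)]
    rw [Finset.sum_const, nsmul_eq_mul]
  · intro a ha b hb hab
    exact ball_disjoint p (hR a ha) (hR b hb) hab
  · intro c _
    exact ball_meas p c s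

theorem haar_ball (c : ℤ_[p]) (s : ℕ) : haar p (ball p c s) = ((p : ENNReal) ^ s)⁻¹ := by
  rw [haar_ball_eq_zero_ball]
  have h := haar_union p s (Finset.range (p ^ s)) (fun c hc => Finset.mem_range.mp hc)
  rw [← univ_eq_union, haar_univ, Finset.card_range] at h
  have h' := ENNReal.eq_inv_of_mul_eq_one_left (a := haar p (ball p 0 s)) (b := ((p ^ s : ℕ) : ENNReal))
    (by rw [mul_comm]; exact h.symm)
  rw [h']
  push_cast
  rfl

/-- Counting the elements of a residue class up to `N`. -/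
theorem count_class (r : ℕ) (c N : ℕ) :
    ((Finset.Icc 1 N).filter (fun a => a ≡ c [MOD r])).card ≤ N / r + 1 := by
  have h : ((Finset.Icc 1 N).filter (fun a => a ≡ c [MOD r])).card ≤
      (Finset.range (N / r + 1)).card := by
    apply Finset.card_le_card_of_injOn (fun a => a / r)
    · intro a ha
      simp only [Finset.coe_filter, Finset.mem_Icc, Set.mem_ofPred_eq] at ha
      simp only [Finset.coe_range, Set.mem_Iio]
      exact Nat.lt_succ_of_le (Nat.div_le_div_right ha.1.2)
    · intro a ha b hb hab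
      simp only [Finset.coe_filter, Finset.mem_Icc, Set.mem_ofPred_eq] at ha hb
      have h1 : a % r = b % r := ha.2.trans hb.2.symm
      have h2 : a / r = b / r := hab
      rw [← Nat.div_add_mod a r, ← Nat.div_add_mod b r, h1, h2]
  simpa using h

open Classical in
/-- A compact null set contains almost no positive integers. -/
theorem density_zero (K : Set ℤ_[p]) (hK : IsCompact K) (h0 : haar p K = 0) :
    Tendsto (fun N : ℕ => (((Finset.Icc 1 N).filter (fun a => ((a : ℕ) : ℤ_[p]) ∈ K)).card : ℝ) / N)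
      atTop (𝓝 0) := by
  have hreg : (haar p).OuterRegular := by
    unfold haar
    infer_instance
  have key : ∀ δ : ℝ, 0 < δ → ∃ s : ℕ, ∀ N : ℕ,
      (((Finset.Icc 1 N).filter (fun a => ((a : ℕ) : ℤ_[p]) ∈ K)).card : ℝ) ≤ δ * (N + p ^ s) := by
    intro δ hδ
    obtain ⟨U, hKU, hU, hUδ⟩ := K.exists_isOpen_lt_of_lt (μ := haar p) (ENNReal.ofReal δ)
      (by rw [h0]; exact ENNReal.ofReal_pos.mpr hδ)
    obtain ⟨ρ, hρ, hρU⟩ := hK.exists_thickening_subset_open hU hKU
    obtain ⟨s, hs⟩ : ∃ s : ℕ, (p : ℝ) ^ (-(s : ℤ)) < ρ := by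
      have hp1 : (1 : ℝ) < p := by exact_mod_cast hp.out.one_lt
      obtain ⟨s, hs⟩ := exists_pow_lt_of_lt_one hρ (inv_lt_one_of_one_lt₀ hp1)
      refine ⟨s, ?_⟩
      rw [zpow_neg, zpow_natCast, ← inv_pow]
      exact hs
    refine ⟨s, ?_⟩
    set R : Finset ℕ := (Finset.range (p ^ s)).filter
      (fun c : ℕ => ∃ z ∈ K, z ∈ ball p (c : ℤ_[p]) s) with hR
    have hsub : (⋃ c ∈ R, ball p (c : ℤ_[p]) s) ⊆ U := by
      intro w hw
      simp only [Set.mem_iUnion] at hw
      obtain ⟨c, hc, hwc⟩ := hw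
      rw [hR, Finset.mem_filter] at hc
      obtain ⟨_, z, hz, hzc⟩ := hc
      apply hρU
      rw [Metric.mem_thickening_iff]
      refine ⟨z, hz, lt_of_le_of_lt ?_ hs⟩
      have h1 : w ∈ ball p z s := by
        rw [mem_ball] at hwc hzc ⊢
        have := dvd_sub hwc hzc
        rwa [sub_sub_sub_cancel_right] at this
      rw [ball_eq_closedBall, Metric.mem_closedBall] at h1
      exact h1
    have hcard : (R.card : ℝ) ≤ δ * p ^ s := by
      have h1 := haar_union p s R (fun c hc => Finset.mem_range.mp (Finset.mem_filter.mp hc).1)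
      have h2 : haar p (⋃ c ∈ R, ball p (c : ℤ_[p]) s) ≤ ENNReal.ofReal δ :=
        (measure_mono hsub).trans hUδ.le
      rw [h1, haar_ball] at h2
      have hpne : ((p : ENNReal) ^ s) ≠ 0 := pow_ne_zero _ (by exact_mod_cast hp.out.ne_zero)
      have hptop : ((p : ENNReal) ^ s) ≠ ⊤ := ENNReal.pow_ne_top (ENNReal.natCast_ne_top p)
      rw [← div_eq_mul_inv, ENNReal.div_le_iff hpne hptop] at h2
      have h3 : (R.card : ENNReal) ≤ ENNReal.ofReal (δ * p ^ s) := by
        rw [ENNReal.ofReal_mul hδ.le]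
        convert h2 using 2
        rw [ENNReal.ofReal_pow (by positivity), ENNReal.ofReal_natCast]
      rw [← ENNReal.ofReal_natCast] at h3
      exact (ENNReal.ofReal_le_ofReal_iff (by positivity)).mp h3
    intro N
    have hsub2 : (Finset.Icc 1 N).filter (fun a => ((a : ℕ) : ℤ_[p]) ∈ K) ⊆
        R.biUnion (fun c => (Finset.Icc 1 N).filter (fun a => a ≡ c [MOD p ^ s])) := by
      intro a ha
      rw [Finset.mem_filter] at ha
      rw [Finset.mem_biUnion]
      have hpos : 0 < p ^ s := pow_pos hp.out.pos s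
      refine ⟨a % p ^ s, ?_, ?_⟩
      · rw [hR, Finset.mem_filter]
        refine ⟨Finset.mem_range.mpr (Nat.mod_lt _ hpos), a, ha.2, ?_⟩
        rw [mem_ball]
        refine ⟨((a / p ^ s : ℕ) : ℤ_[p]), ?_⟩
        have := Nat.div_add_mod a (p ^ s)
        have h2 : (a : ℤ_[p]) = (p : ℤ_[p]) ^ s * ((a / p ^ s : ℕ) : ℤ_[p]) +
            ((a % p ^ s : ℕ) : ℤ_[p]) := by
          exact_mod_cast this.symm
        rw [sub_eq_iff_eq_add]
        exact h2
      · rw [Finset.mem_filter]
        exact ⟨ha.1, (Nat.mod_modEq a (p ^ s)).symm⟩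
    have hle : ((Finset.Icc 1 N).filter (fun a => ((a : ℕ) : ℤ_[p]) ∈ K)).card ≤
        R.card * (N / p ^ s + 1) := by
      refine (Finset.card_le_card hsub2).trans (Finset.card_biUnion_le.trans ?_)
      refine (Finset.sum_le_sum (fun c _ => count_class (p ^ s) c N)).trans ?_
      rw [Finset.sum_const, smul_eq_mul]
    have hle2 : (((Finset.Icc 1 N).filter (fun a => ((a : ℕ) : ℤ_[p]) ∈ K)).card : ℝ) ≤
        R.card * (N / p ^ s + 1) := by
      have h1 : (((N / p ^ s : ℕ)) : ℝ) ≤ (N : ℝ) / (p : ℝ) ^ s := by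
        have := @Nat.cast_div_le ℝ _ _ _ N (p ^ s)
        simpa using this
      calc (((Finset.Icc 1 N).filter (fun a => ((a : ℕ) : ℤ_[p]) ∈ K)).card : ℝ)
          ≤ ((R.card * (N / p ^ s + 1) : ℕ) : ℝ) := by exact_mod_cast hle
        _ = R.card * (((N / p ^ s : ℕ) : ℝ) + 1) := by push_cast; ring
        _ ≤ R.card * (N / p ^ s + 1) := by gcongr
    have hps : (0 : ℝ) < (p : ℝ) ^ s := pow_pos (by exact_mod_cast hp.out.pos) s
    calc (((Finset.Icc 1 N).filter (fun a => ((a : ℕ) : ℤ_[p]) ∈ K)).card : ℝ)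
        ≤ R.card * (N / p ^ s + 1) := hle2
      _ ≤ (δ * p ^ s) * (N / p ^ s + 1) := by gcongr
      _ = δ * (N + p ^ s) := by field_simp
  rw [Metric.tendsto_atTop]
  intro η hη
  obtain ⟨s, hs⟩ := key (η / 4) (by positivity)
  refine ⟨p ^ s + 1, fun N hN => ?_⟩
  have hNpos : (0 : ℝ) < N := by
    have : 0 < N := by omega
    exact_mod_cast this
  rw [Real.dist_eq, sub_zero, abs_of_nonneg (by positivity), div_lt_iff₀ hNpos]
  have h1 := hs N
  have h2 : ((p : ℝ) ^ s) ≤ N := by
    have : p ^ s ≤ N := by omega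
    exact_mod_cast this
  nlinarith

end Padic

end Pool.Agent.Helper191_Fac
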