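import Pool.Agent.Helper191_Fac.Meas

set_option autoImplicit false

namespace Pool.Agent.Helper191_Fac

open MeasureTheory Filter Topology

section Padic
variable (p : ℕ) [hp : Fact p.Prime]

attribute [local instance] mspace
attribute [local instance] bspace

/-- The set of beginnings of length `n` of the first entries of the pairs in `X`. -/
def pref (X : Set ((ℕ → Bool) × ℤ_[p])) (n : ℕ) : Set (Fin n → Bool) :=
  (fun x : (ℕ → Bool) × ℤ_[p] => fun i : Fin n => x.1 i) '' X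

theorem haar_le_pref {g L k m c : ℕ} {X : Set ((ℕ → Bool) × ℤ_[p])}
    (hX : ∀ x ∈ X, Piece p g L (k + 1) m c x) {n : ℕ} (hn : m ≤ n) :
    haar p (Prod.snd '' X) ≤
      ((pref p X n).ncard : ENNReal) * ((p : ENNReal) ^ (L * (n / g - k) - m))⁻¹ := by
  classical
  have hfin : (pref p X n).Finite := Set.toFinite _
  have hch : ∀ w : Fin n → Bool, ∃ z : ℤ_[p], w ∈ pref p X n →
      ∀ x ∈ X, (fun i : Fin n => x.1 i) = w → x.2 ∈ ball p z (L * (n / g - k) - m) := by
    intro w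
    by_cases hw : w ∈ pref p X n
    · obtain ⟨x, hx, hxw⟩ := hw
      refine ⟨x.2, fun _ y hy hyw => ?_⟩
      rw [mem_ball]
      have hxy : ∀ i < n, x.1 i = y.1 i := by
        intro i hi
        have := congrFun (hxw.trans hyw.symm) ⟨i, hi⟩
        exact this
      have h1 := (hX x hx).2.1 k (Nat.lt_succ_self k) n
      have h2 := (hX y hy).2.1 k (Nat.lt_succ_self k) n
      rw [← pow_mul] at h1 h2
      exact piece_close p (hX x hx) (hX y hy) hn hxy h1 h2
    · exact ⟨0, fun h => absurd h hw⟩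
  choose zz hzz using hch
  have hsub : Prod.snd '' X ⊆ ⋃ w ∈ hfin.toFinset, ball p (zz w) (L * (n / g - k) - m) := by
    rintro _ ⟨x, hx, rfl⟩
    simp only [Set.mem_iUnion]
    have hw : (fun i : Fin n => x.1 i) ∈ pref p X n := ⟨x, hx, rfl⟩
    exact ⟨_, hfin.mem_toFinset.mpr hw, hzz _ hw x hx rfl⟩
  refine (measure_mono hsub).trans ((measure_biUnion_finset_le _ _).trans ?_)
  rw [Finset.sum_congr rfl (fun w _ => haar_ball p (zz w) (L * (n / g - k) - m))]
  rw [Finset.sum_const, nsmul_eq_mul, Set.ncard_eq_toFinset_card _ hfin]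

/-- Few beginnings force a null set. -/
theorem null_of_growth {g L k m c : ℕ} (hg : 0 < g) {X : Set ((ℕ → Bool) × ℤ_[p])}
    (hX : ∀ x ∈ X, Piece p g L (k + 1) m c x) (C θ : ℝ) (hθ0 : 0 ≤ θ) (hθ : θ < (p : ℝ) ^ L)
    (hgr : ∀ q, ((pref p X (g * q)).ncard : ℝ) ≤ C * θ ^ q) :
    haar p (Prod.snd '' X) = 0 := by
  have hp0 : (0 : ℝ) < p := by exact_mod_cast hp.out.pos
  have hC : 0 ≤ C := by
    have := hgr 0
    simp only [pow_zero, mul_one] at this
    exact le_trans (Nat.cast_nonneg _) this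
  have hpL : (0 : ℝ) < (p : ℝ) ^ L := pow_pos hp0 L
  set ρ := θ / (p : ℝ) ^ L with hρ
  have hρ0 : 0 ≤ ρ := div_nonneg hθ0 hpL.le
  have hρ1 : ρ < 1 := (div_lt_one hpL).mpr hθ
  have hbound : ∀ q, m ≤ q → haar p (Prod.snd '' X) ≤
      ENNReal.ofReal (C * (p : ℝ) ^ (L * k + m) * ρ ^ q) := by
    intro q hq
    have h1 := haar_le_pref p hX (n := g * q) (hq.trans (Nat.le_mul_of_pos_left q hg))
    rw [Nat.mul_div_cancel_left _ hg] at h1
    refine h1.trans ?_
    rw [← ENNReal.ofReal_natCast ((pref p X (g * q)).ncard), ← ENNReal.ofReal_natCast p,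
      ← ENNReal.ofReal_pow hp0.le, ← ENNReal.ofReal_inv_of_pos (pow_pos hp0 _),
      ← ENNReal.ofReal_mul (Nat.cast_nonneg _)]
    apply ENNReal.ofReal_le_ofReal
    have h2 : ((p : ℝ) ^ (L * (q - k) - m))⁻¹ ≤ (p : ℝ) ^ (L * k + m) * (((p : ℝ) ^ L) ^ q)⁻¹ := by
      rw [inv_le_iff_one_le_mul₀ (pow_pos hp0 _), mul_assoc, mul_comm (((p : ℝ) ^ L) ^ q)⁻¹,
        ← mul_assoc, ← div_eq_mul_inv, one_le_div (pow_pos hpL q), ← pow_mul, ← pow_add]
      apply pow_le_pow_right₀ (by exact_mod_cast hp.out.one_le)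
      have : L * q ≤ L * (q - k) + L * k := by
        rw [← mul_add]
        exact Nat.mul_le_mul_left L (by omega)
      omega
    calc ((pref p X (g * q)).ncard : ℝ) * ((p : ℝ) ^ (L * (q - k) - m))⁻¹
        ≤ (C * θ ^ q) * ((p : ℝ) ^ (L * k + m) * (((p : ℝ) ^ L) ^ q)⁻¹) := by
          apply mul_le_mul (hgr q) h2 (by positivity) (by positivity)
      _ = C * (p : ℝ) ^ (L * k + m) * ρ ^ q := by
          rw [hρ, div_pow]
          ring
  have hlim : Tendsto (fun q : ℕ => ENNReal.ofReal (C * (p : ℝ) ^ (L * k + m) * ρ ^ q))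
      atTop (𝓝 0) := by
    have h1 := (tendsto_pow_atTop_nhds_zero_of_lt_one hρ0 hρ1).const_mul
      (C * (p : ℝ) ^ (L * k + m))
    rw [mul_zero] at h1
    have h2 := ENNReal.tendsto_ofReal h1
    rwa [ENNReal.ofReal_zero] at h2
  have hle : haar p (Prod.snd '' X) ≤ 0 :=
    ge_of_tendsto hlim (eventually_atTop.mpr ⟨m, hbound⟩)
  exact le_antisymm hle zero_le

/-- Covering lemma on the binary tree. -/
theorem tree_step (δ : ENNReal) (K : ℕ) : ∀ (n : ℕ) (Y : Set ((ℕ → Bool) × ℤ_[p])),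
    (∀ x ∈ Y, ∃ n', n ≤ n' ∧ n' ≤ n + K ∧
      haar p (Prod.snd '' {y | y ∈ Y ∧ ∀ i, n ≤ i → i < n' → y.1 i = x.1 i}) ≤
        δ * ((2 : ENNReal) ^ n')⁻¹) →
    haar p (Prod.snd '' Y) ≤ δ * ((2 : ENNReal) ^ n)⁻¹ := by
  induction K with
  | zero =>
    intro n Y hY
    rcases Y.eq_empty_or_nonempty with h | ⟨x, hx⟩
    · rw [h, Set.image_empty, measure_empty]
      exact zero_le
    · obtain ⟨n', h1, h2, h3⟩ := hY x hx
      have hn' : n' = n := by omega
      subst hn'
      refine (measure_mono (Set.image_mono ?_)).trans h3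
      intro y hy
      exact ⟨hy, fun i h4 h5 => absurd h4 (by omega)⟩
  | succ K ih =>
    intro n Y hY
    by_cases hs : haar p (Prod.snd '' Y) ≤ δ * ((2 : ENNReal) ^ n)⁻¹
    · exact hs
    · have hb : ∀ b : Bool, haar p (Prod.snd '' {y | y ∈ Y ∧ y.1 n = b}) ≤
          δ * ((2 : ENNReal) ^ (n + 1))⁻¹ := by
        intro b
        apply ih (n + 1)
        rintro x ⟨hx, hxb⟩
        obtain ⟨n', h1, h2, h3⟩ := hY x hx
        have hne : n' ≠ n := by
          rintro rfl
          apply hs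
          refine (measure_mono (Set.image_mono ?_)).trans h3
          intro y hy
          exact ⟨hy, fun i h4 h5 => absurd h4 (by omega)⟩
        refine ⟨n', by omega, by omega, ?_⟩
        refine (measure_mono (Set.image_mono ?_)).trans h3
        rintro y ⟨⟨hy, hyb⟩, hyi⟩
        refine ⟨hy, fun i h4 h5 => ?_⟩
        rcases Nat.eq_or_lt_of_le h4 with h6 | h6
        · rw [← h6, hyb, hxb]
        · exact hyi i h6 h5
      have hU : Prod.snd '' Y ⊆ Prod.snd '' {y | y ∈ Y ∧ y.1 n = true} ∪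
          Prod.snd '' {y | y ∈ Y ∧ y.1 n = false} := by
        rintro _ ⟨y, hy, rfl⟩
        rcases hyb : y.1 n with _ | _
        · exact Or.inr ⟨y, ⟨hy, hyb⟩, rfl⟩
        · exact Or.inl ⟨y, ⟨hy, hyb⟩, rfl⟩
      refine (measure_mono hU).trans ((measure_union_le _ _).trans
        ((add_le_add (hb true) (hb false)).trans ?_))
      rw [← two_mul, mul_left_comm, pow_succ, ENNReal.mul_inv (Or.inl (by simp))
        (Or.inl (by simp)), mul_left_comm (2 : ENNReal), ENNReal.mul_inv_cancel (by simp) (by simp),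
        mul_one]

/-- If every path of `X` has a small node, then the projection of `X` is small. -/
theorem tree_null (δ : ENNReal) (X : Set ((ℕ → Bool) × ℤ_[p]))
    (hX : ∀ x ∈ X, ∃ n, haar p (Prod.snd '' {y | y ∈ X ∧ ∀ i < n, y.1 i = x.1 i}) ≤
        δ * ((2 : ENNReal) ^ n)⁻¹) :
    haar p (Prod.snd '' X) ≤ δ := by
  set XK : ℕ → Set ((ℕ → Bool) × ℤ_[p]) := fun K => {x | x ∈ X ∧ ∃ n ≤ K,
    haar p (Prod.snd '' {y | y ∈ X ∧ ∀ i < n, y.1 i = x.1 i}) ≤ δ * ((2 : ENNReal) ^ n)⁻¹}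
    with hXK
  have h1 : ∀ K, haar p (Prod.snd '' XK K) ≤ δ := by
    intro K
    have := tree_step p δ K 0 (XK K) ?_
    · simpa using this
    · rintro x ⟨hx, n, hn, hsm⟩
      refine ⟨n, by omega, by omega, ?_⟩
      refine (measure_mono (Set.image_mono ?_)).trans hsm
      rintro y ⟨hy, hyi⟩
      exact ⟨hy.1, fun i hi => hyi i (by omega) hi⟩
  have h2 : Prod.snd '' X = ⋃ K, Prod.snd '' XK K := by
    apply Set.Subset.antisymm
    · rintro _ ⟨x, hx, rfl⟩
      obtain ⟨n, hn⟩ := hX x hx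
      exact Set.mem_iUnion.mpr ⟨n, x, ⟨hx, n, le_rfl, hn⟩, rfl⟩
    · apply Set.iUnion_subset
      intro K
      apply Set.image_mono
      exact fun x hx => hx.1
  have hmono : Monotone (fun K => Prod.snd '' XK K) := by
    intro K K' hKK
    apply Set.image_mono
    rintro x ⟨hx, n, hn, hsm⟩
    exact ⟨hx, n, hn.trans hKK, hsm⟩
  rw [h2, hmono.measure_iUnion]
  exact iSup_le h1

end Padic

end Pool.Agent.Helper191_Fac
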