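import Pool.Agent.Helper191_Fac.Poly

set_option autoImplicit false

namespace Pool.Agent.Helper191_Fac

open Polynomial

theorem map_asc {R R' : Type*} [CommRing R] [CommRing R'] (f : R →+* R') (z : R) (n : ℕ) :
    f (asc z n) = asc (f z) n := by
  unfold asc
  rw [map_prod]
  apply Finset.prod_congr rfl
  intro j _
  simp

theorem map_S {R R' : Type*} [CommRing R] [CommRing R'] (f : R →+* R') (ε : ℕ → Bool)
    (n : ℕ) (z : R) : f (S ε n z) = S ε n (f z) := by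
  unfold S
  rw [map_sum]
  apply Finset.sum_congr rfl
  intro j _
  split_ifs
  · exact map_asc f z j
  · simp

/-- The value at a negative integer `-N`, `N ≥ 3`, is nonzero. -/
theorem S_neg_ne_zero (ε : ℕ → Bool) (h0 : ε 0 = true) (N : ℕ) (hN : 3 ≤ N) :
    S ε N (-(N : ℤ)) ≠ 0 := by
  intro h
  have h1 : ((N : ℤ) - 1) ∣ S ε N (-(N : ℤ)) - 1 := by
    unfold S
    obtain ⟨M, rfl⟩ : ∃ M, N = M + 1 := ⟨N - 1, by omega⟩
    rw [Finset.sum_range_succ']
    simp only [h0, if_true, asc_zero]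
    rw [add_sub_cancel_right]
    apply Finset.dvd_sum
    intro i _
    split_ifs
    · unfold asc
      rw [Finset.prod_range_succ']
      apply Dvd.dvd.mul_left
      refine ⟨-1, ?_⟩
      push_cast
      ring
    · exact dvd_zero _
  rw [h, zero_sub, dvd_neg] at h1
  have h2 : (2 : ℤ) ≤ (N : ℤ) - 1 := by
    have : (3 : ℤ) ≤ (N : ℤ) := by exact_mod_cast hN
    linarith
  have h3 := Int.le_of_dvd one_pos h1
  linarith

theorem asc_neg_eq_zero (N i : ℕ) (hN : 1 ≤ N) (hi : N ≤ i) : asc (-(N : ℤ)) i = 0 := by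
  unfold asc
  apply Finset.prod_eq_zero (i := N - 1) (Finset.mem_range.mpr (by omega))
  have : ((N - 1 : ℕ) : ℤ) = (N : ℤ) - 1 := by
    push_cast [Nat.cast_sub hN]
    ring
  rw [this]
  ring

theorem S_neg_const (ε : ℕ → Bool) (N n : ℕ) (hN : 1 ≤ N) (hn : N ≤ n) :
    S ε n (-(N : ℤ)) = S ε N (-(N : ℤ)) := by
  unfold S
  rw [← Finset.sum_range_add_sum_Ico _ hn]
  rw [add_eq_left]
  apply Finset.sum_eq_zero
  intro i hi
  rw [Finset.mem_Ico] at hi
  rw [asc_neg_eq_zero N i hN hi.1]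
  simp

section Padic
variable (p : ℕ) [hp : Fact p.Prime]

theorem eq_zero_of_forall_pow_dvd (x : ℤ_[p]) (h : ∀ n, (p : ℤ_[p]) ^ n ∣ x) : x = 0 := by
  by_contra hx
  have h1 := h (x.valuation + 1)
  rw [← Ideal.mem_span_singleton, PadicInt.mem_span_pow_iff_le_valuation x hx] at h1
  omega

theorem exists_order (g : ℕ) (hg : 0 < g) (π : ℤ_[p]) (hπ : (p : ℤ_[p]) ∣ π)
    (ε : ℕ → Bool) (h0 : ε 0 = true) (z : ℤ_[p]) :
    ∃ k n, ¬ π ^ (n / g - k) ∣ D ε k n z := by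
  by_contra hcon
  push Not at hcon
  set a := z.zmodRepr with ha
  have hap : a < p := PadicInt.zmodRepr_lt_p z
  have hza : (p : ℤ_[p]) ∣ z - a := by
    have := PadicInt.sub_zmodRepr_mem z
    rwa [PadicInt.maximalIdeal_eq_span_p, Ideal.mem_span_singleton] at this
  have hp2 : 2 ≤ p := hp.out.two_le
  set N := 3 * p - a with hN
  have hN3 : 3 ≤ N := by omega
  have hNc : (N : ℤ_[p]) = 3 * p - a := by
    rw [hN, Nat.cast_sub (by omega)]
    push_cast
    ring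
  have hh : (p : ℤ_[p]) ∣ -(N : ℤ_[p]) - z := by
    rw [hNc]
    have : -(3 * (p : ℤ_[p]) - (a : ℤ_[p])) - z = -3 * (p : ℤ_[p]) - (z - a) := by ring
    rw [this]
    exact dvd_sub (Dvd.intro_left _ rfl) hza
  have key : S ε N (-(N : ℤ_[p])) = 0 := by
    apply eq_zero_of_forall_pow_dvd p
    intro n
    have h1 := S_small (p : ℤ_[p]) π hπ g ε (g * (n + N)) z (-(N : ℤ_[p]) - z) hh
      (fun k => hcon k _)
    rw [Nat.mul_div_cancel_left _ hg, add_sub_cancel] at h1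
    have h2 : S ε (g * (n + N)) (-(N : ℤ_[p])) = S ε N (-(N : ℤ_[p])) := by
      have h3 := congrArg (Int.castRingHom ℤ_[p]) (S_neg_const ε N (g * (n + N)) (by omega)
        (by nlinarith))
      rw [map_S, map_S] at h3
      simpa using h3
    rw [h2] at h1
    exact (pow_dvd_pow _ (by omega)).trans h1
  have h4 := S_neg_ne_zero ε h0 N hN3
  apply h4
  have h5 : (Int.castRingHom ℤ_[p]) (S ε N (-(N : ℤ))) = 0 := by
    rw [map_S]
    simpa using key
  have h6 : ((S ε N (-(N : ℤ)) : ℤ) : ℤ_[p]) = 0 := h5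
  exact_mod_cast h6

/-- Localisation of a zero: a divisibility lemma. -/
theorem dvd_of_prec {P m : ℕ} {h A r : ℤ_[p]} (hA : ¬ (p : ℤ_[p]) ^ m ∣ A)
    (hh : (p : ℤ_[p]) ^ m ∣ h) (H : (p : ℤ_[p]) ^ P ∣ h * (A + h * r)) :
    (p : ℤ_[p]) ^ (P - m) ∣ h := by
  by_contra hcon
  have hne : h ≠ 0 := by
    rintro rfl
    exact hcon (dvd_zero _)
  have hlt : h.valuation < P - m := by
    by_contra hge
    push Not at hge
    apply hcon
    rw [← Ideal.mem_span_singleton, PadicInt.mem_span_pow_iff_le_valuation h hne]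
    exact hge
  have hspec := PadicInt.unitCoeff_spec hne
  set a := h.valuation with ha
  set u := PadicInt.unitCoeff hne with hu
  have hpne : (p : ℤ_[p]) ^ a ≠ 0 := pow_ne_zero _ PadicInt.prime_p.ne_zero
  have H1 : (p : ℤ_[p]) ^ (a + (P - a)) ∣ (u : ℤ_[p]) * (p : ℤ_[p]) ^ a * (A + h * r) := by
    rw [← hspec]
    convert H using 2
    omega
  rw [pow_add, mul_comm (u : ℤ_[p]), mul_assoc] at H1
  have H2 : (p : ℤ_[p]) ^ (P - a) ∣ (u : ℤ_[p]) * (A + h * r) :=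
    (mul_dvd_mul_iff_left hpne).mp H1
  have H3 : (p : ℤ_[p]) ^ (P - a) ∣ (A + h * r) := by
    rwa [IsUnit.dvd_mul_left u.isUnit] at H2
  have H4 : (p : ℤ_[p]) ^ m ∣ (A + h * r) := (pow_dvd_pow _ (by omega)).trans H3
  apply hA
  have H5 : (p : ℤ_[p]) ^ m ∣ h * r := hh.mul_right r
  exact (dvd_add_left H5).mp H4

/-- `ε 0` is selected and the sums are divisible by the expected products. -/
def Wit (x : (ℕ → Bool) × ℤ_[p]) : Prop :=
  x.1 0 = true ∧ ∀ n, asc x.2 n ∣ S x.1 n x.2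

/-- Witness pairs of order `k` with the constant `m`, near `c`. -/
def Piece (g L k m c : ℕ) (x : (ℕ → Bool) × ℤ_[p]) : Prop :=
  Wit p x ∧ (∀ j < k, ∀ n, ((p : ℤ_[p]) ^ L) ^ (n / g - j) ∣ D x.1 j n x.2) ∧
    (∀ n, m ≤ n → ¬ (p : ℤ_[p]) ^ m ∣ ((k : ℕ) : ℤ_[p]) * D x.1 k n x.2) ∧
    (p : ℤ_[p]) ^ m ∣ x.2 - c

theorem pow_dvd_asc (g L : ℕ) (hL : ∀ y : ℤ_[p], (p : ℤ_[p]) ^ L ∣ asc y g)
    (z : ℤ_[p]) (n : ℕ) : ((p : ℤ_[p]) ^ L) ^ (n / g) ∣ asc z n := by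
  have h := lev_taylor ((p : ℤ_[p]) ^ L) g hL z n 0
  rw [taylor_coeff_zero, eval_ascP] at h
  simpa using h

theorem exists_piece (g L : ℕ) (hg : 0 < g) (hL0 : 0 < L)
    (hL : ∀ y : ℤ_[p], (p : ℤ_[p]) ^ L ∣ asc y g) (x : (ℕ → Bool) × ℤ_[p]) (hx : Wit p x) :
    ∃ k m c : ℕ, 0 < k ∧ Piece p g L k m c x := by
  classical
  have hex := exists_order p g hg ((p : ℤ_[p]) ^ L) (dvd_pow_self _ (by omega)) x.1 hx.1 x.2
  set k := Nat.find hex with hk
  obtain ⟨n0, hn0⟩ := Nat.find_spec hex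
  rw [← hk] at hn0
  have hlt : ∀ j < k, ∀ n, ((p : ℤ_[p]) ^ L) ^ (n / g - j) ∣ D x.1 j n x.2 := by
    intro j hj n
    have := Nat.find_min hex hj
    push Not at this
    exact this n
  have hk0 : 0 < k := by
    rcases Nat.eq_zero_or_pos k with h | h
    · exfalso
      rw [h] at hn0
      apply hn0
      rw [D_zero, Nat.sub_zero]
      exact (pow_dvd_asc p g L hL x.2 n0).trans (hx.2 n0)
    · exact h
  have hkne : ((k : ℕ) : ℤ_[p]) ≠ 0 := by
    exact_mod_cast hk0.ne'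
  have hspec := PadicInt.unitCoeff_spec hkne
  set v := ((k : ℕ) : ℤ_[p]).valuation with hv
  set u := PadicInt.unitCoeff hkne with hu
  set M := L * (n0 / g - k) with hM
  set m := max (M + v) n0 with hm
  refine ⟨k, m, x.2.appr m, hk0, hx, hlt, ?_, ?_⟩
  · intro n hn hdvd
    have hn' : n0 ≤ n := le_trans (le_max_right _ _) hn
    have h1 : (p : ℤ_[p]) ^ (v + M) ∣ (u : ℤ_[p]) * (p : ℤ_[p]) ^ v * D x.1 k n x.2 := by
      rw [← hspec]
      refine (pow_dvd_pow _ ?_).trans hdvd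
      rw [add_comm]
      exact le_max_left _ _
    rw [pow_add, mul_comm (u : ℤ_[p]), mul_assoc] at h1
    have h2 : (p : ℤ_[p]) ^ M ∣ (u : ℤ_[p]) * D x.1 k n x.2 :=
      (mul_dvd_mul_iff_left (pow_ne_zero _ PadicInt.prime_p.ne_zero)).mp h1
    have h3 : (p : ℤ_[p]) ^ M ∣ D x.1 k n x.2 := by
      rwa [IsUnit.dvd_mul_left u.isUnit] at h2
    have h4 := D_tail ((p : ℤ_[p]) ^ L) g hL x.1 k hn' x.2
    rw [← pow_mul, ← hM] at h4
    apply hn0
    rw [← pow_mul, ← hM]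
    exact (dvd_sub_right h3).mp h4
  · have := PadicInt.appr_spec m x.2
    rwa [Ideal.mem_span_singleton] at this

/-- Two pairs in the same piece with a common beginning have nearby second entries. -/
theorem piece_close {g L k m c P n : ℕ} {x y : (ℕ → Bool) × ℤ_[p]}
    (hx : Piece p g L (k + 1) m c x) (hy : Piece p g L (k + 1) m c y) (hn : m ≤ n)
    (hxy : ∀ i < n, x.1 i = y.1 i) (hPx : (p : ℤ_[p]) ^ P ∣ D x.1 k n x.2)
    (hPy : (p : ℤ_[p]) ^ P ∣ D y.1 k n y.2) : (p : ℤ_[p]) ^ (P - m) ∣ y.2 - x.2 := by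
  obtain ⟨r, hr⟩ := D_step x.1 k n x.2 (y.2 - x.2)
  rw [add_sub_cancel] at hr
  have h1 : (p : ℤ_[p]) ^ P ∣ (y.2 - x.2) * (((k + 1 : ℕ) : ℤ_[p]) * D x.1 (k + 1) n x.2 +
      (y.2 - x.2) * r) := by
    rw [← D_congr hxy, hr] at hPy
    exact (dvd_add_right hPx).mp hPy
  have h2 : (p : ℤ_[p]) ^ m ∣ y.2 - x.2 := by
    have := dvd_sub hy.2.2.2 hx.2.2.2
    rwa [sub_sub_sub_cancel_right] at this
  exact dvd_of_prec p (hx.2.2.1 n hn) h2 h1

end Padic

end Pool.Agent.Helper191_Fac
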