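import Mathlib

set_option autoImplicit false

namespace Pool.Agent.Helper191_Fac

open Polynomial

section Ring
variable {R : Type*} [CommRing R]

/-- The product (z+1)(z+2)...(z+n). -/
def asc (z : R) (n : ℕ) : R := ∏ j ∈ Finset.range n, (z + ((j : R) + 1))

/-- The product (X+1)(X+2)...(X+i) as a polynomial. -/
noncomputable def ascP (R : Type*) [CommRing R] (i : ℕ) : R[X] :=
  ∏ j ∈ Finset.range i, (X + C ((j : R) + 1))

/-- The sum of `ascP i` over the indices `i < n` selected by `ε`. -/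
noncomputable def Q (R : Type*) [CommRing R] (ε : ℕ → Bool) (n : ℕ) : R[X] :=
  ∑ i ∈ Finset.range n, if ε i then ascP R i else 0

/-- The sum of `asc z i` over the indices `i < n` selected by `ε`. -/
def S (ε : ℕ → Bool) (n : ℕ) (z : R) : R :=
  ∑ i ∈ Finset.range n, if ε i then asc z i else 0

/-- The `k`-th Taylor coefficient at `z` of `Q ε n`. -/
noncomputable def D (ε : ℕ → Bool) (k n : ℕ) (z : R) : R := (taylor z (Q R ε n)).coeff k

theorem asc_succ (z : R) (n : ℕ) : asc z (n + 1) = asc z n * (z + ((n : R) + 1)) := by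
  unfold asc
  rw [Finset.prod_range_succ]

theorem asc_zero (z : R) : asc z 0 = 1 := by
  unfold asc
  simp

theorem asc_add (z : R) (m n : ℕ) : asc z (m + n) = asc z m * asc (z + m) n := by
  unfold asc
  rw [Finset.prod_range_add]
  congr 1
  apply Finset.prod_congr rfl
  intro j _
  push_cast
  ring

theorem eval_ascP (z : R) (i : ℕ) : (ascP R i).eval z = asc z i := by
  unfold ascP asc
  rw [eval_prod]
  simp

theorem D_zero (ε : ℕ → Bool) (n : ℕ) (z : R) : D ε 0 n z = S ε n z := by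
  unfold D S Q
  rw [taylor_coeff_zero, eval_finsetSum]
  apply Finset.sum_congr rfl
  intro i _
  split_ifs
  · exact eval_ascP z i
  · simp

theorem S_succ (ε : ℕ → Bool) (n : ℕ) (z : R) :
    S ε (n + 1) z = S ε n z + if ε n then asc z n else 0 := by
  unfold S
  rw [Finset.sum_range_succ]

theorem S_congr {ε ε' : ℕ → Bool} {n : ℕ} (h : ∀ i < n, ε i = ε' i) (z : R) :
    S ε n z = S ε' n z := by
  unfold S
  apply Finset.sum_congr rfl
  intro i hi
  rw [h i (Finset.mem_range.mp hi)]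

theorem Q_congr {ε ε' : ℕ → Bool} {n : ℕ} (h : ∀ i < n, ε i = ε' i) :
    Q R ε n = Q R ε' n := by
  unfold Q
  apply Finset.sum_congr rfl
  intro i hi
  rw [h i (Finset.mem_range.mp hi)]

theorem D_congr {ε ε' : ℕ → Bool} {n : ℕ} (h : ∀ i < n, ε i = ε' i) (k : ℕ) (z : R) :
    D ε k n z = D ε' k n z := by
  unfold D
  rw [Q_congr h]

/-- Coefficient `k` is divisible by `π ^ (q - k)`, for every `k`. -/
def Lev (π : R) (q : ℕ) (f : R[X]) : Prop := ∀ k, π ^ (q - k) ∣ f.coeff k

theorem Lev.mul {π : R} {q : ℕ} {f : R[X]} (hf : Lev π q f) (g : R[X]) : Lev π q (f * g) := by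
  intro k
  rw [coeff_mul]
  apply Finset.dvd_sum
  intro x hx
  rw [Finset.HasAntidiagonal.mem_antidiagonal] at hx
  apply Dvd.dvd.mul_right
  exact (pow_dvd_pow π (by omega)).trans (hf x.1)

theorem Lev.mul_one {π : R} {q : ℕ} {f : R[X]} (hf : Lev π q f) {g : R[X]}
    (hg : π ∣ g.coeff 0) : Lev π (q + 1) (f * g) := by
  intro k
  rw [coeff_mul]
  apply Finset.dvd_sum
  intro x hx
  rw [Finset.HasAntidiagonal.mem_antidiagonal] at hx
  by_cases h0 : x.2 = 0
  · by_cases hk : q + 1 ≤ k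
    · rw [Nat.sub_eq_zero_of_le hk, pow_zero]
      exact one_dvd _
    · have : q + 1 - k = (q - x.1) + 1 := by omega
      rw [this, pow_succ, h0]
      exact mul_dvd_mul (hf x.1) hg
  · apply Dvd.dvd.mul_right
    exact (pow_dvd_pow π (by omega)).trans (hf x.1)

theorem taylor_ascP (z : R) (i : ℕ) :
    taylor z (ascP R i) = ∏ j ∈ Finset.range i, (X + C (z + ((j : R) + 1))) := by
  unfold ascP
  rw [show taylor z (∏ j ∈ Finset.range i, (X + C ((j : R) + 1)))
      = taylorAlgHom z (∏ j ∈ Finset.range i, (X + C ((j : R) + 1))) from rfl]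
  rw [map_prod]
  apply Finset.prod_congr rfl
  intro j _
  change taylor z (X + C ((j : R) + 1)) = _
  rw [map_add, taylor_X, taylor_C, add_assoc, ← C_add]

theorem lev_prod (π : R) (g : ℕ) (hπ : ∀ y : R, π ∣ asc y g) (z : R) (q : ℕ) :
    Lev π q (∏ j ∈ Finset.range (g * q), (X + C (z + ((j : R) + 1)))) := by
  induction q with
  | zero =>
    intro k
    simp
  | succ q ih =>
    rw [Nat.mul_succ, Finset.prod_range_add]
    apply ih.mul_one
    rw [coeff_zero_eq_eval_zero, eval_prod]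
    have := hπ (z + (g * q : ℕ))
    refine this.trans (dvd_of_eq ?_)
    unfold asc
    apply Finset.prod_congr rfl
    intro j _
    simp
    ring

theorem lev_taylor (π : R) (g : ℕ) (hπ : ∀ y : R, π ∣ asc y g) (z : R) (i : ℕ) :
    Lev π (i / g) (taylor z (ascP R i)) := by
  rw [taylor_ascP]
  have h : i = g * (i / g) + i % g := (Nat.div_add_mod i g).symm
  have h2 : ∏ j ∈ Finset.range i, (X + C (z + ((j : R) + 1)))
      = (∏ j ∈ Finset.range (g * (i / g)), (X + C (z + ((j : R) + 1)))) *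
        ∏ j ∈ Finset.range (i % g), (X + C (z + (((g * (i / g) + j : ℕ) : R) + 1))) := by
    conv_lhs => rw [h]
    rw [Finset.prod_range_add]
  rw [h2]
  exact (lev_prod π g hπ z (i / g)).mul _

theorem D_tail (π : R) (g : ℕ) (hπ : ∀ y : R, π ∣ asc y g) (ε : ℕ → Bool) (k : ℕ)
    {n n' : ℕ} (hn : n ≤ n') (z : R) :
    π ^ (n / g - k) ∣ D ε k n' z - D ε k n z := by
  unfold D
  rw [← coeff_sub, ← map_sub]
  have : Q R ε n' - Q R ε n = ∑ i ∈ Finset.Ico n n', if ε i then ascP R i else 0 := by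
    unfold Q
    rw [Finset.sum_Ico_eq_sub _ hn]
  rw [this, map_sum, finsetSum_coeff]
  apply Finset.dvd_sum
  intro i hi
  rw [Finset.mem_Ico] at hi
  split_ifs
  · have h1 := lev_taylor π g hπ z i k
    have h2 : n / g ≤ i / g := Nat.div_le_div_right hi.1
    exact (pow_dvd_pow π (by omega)).trans h1
  · simp

theorem D_step (ε : ℕ → Bool) (k n : ℕ) (z h : R) :
    ∃ r : R, D ε k n (z + h) = D ε k n z + h * (((k + 1 : ℕ) : R) * D ε (k + 1) n z + h * r) := by
  unfold D
  rw [taylor_coeff, taylor_coeff, taylor_coeff]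
  set f := Q R ε n
  obtain ⟨r, hr⟩ := Polynomial.binomExpansion (hasseDeriv k f) z h
  refine ⟨r, ?_⟩
  rw [hr]
  have h1 : derivative (hasseDeriv k f) = ((k + 1 : ℕ)) • hasseDeriv (k + 1) f := by
    have := congrArg (fun φ => φ f) (hasseDeriv_comp (R := R) 1 k)
    simp only [LinearMap.comp_apply, LinearMap.smul_apply] at this
    rw [hasseDeriv_one'] at this
    rw [this, Nat.choose_one_right, add_comm 1 k]
  rw [h1]
  simp
  ring

/-- If all Taylor coefficients vanish to the expected order, the values near `z` are small. -/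
theorem S_small (p π : R) (hp : p ∣ π) (g : ℕ) (ε : ℕ → Bool) (n : ℕ) (z h : R) (hh : p ∣ h)
    (hZ : ∀ k, π ^ (n / g - k) ∣ D ε k n z) : p ^ (n / g) ∣ S ε n (z + h) := by
  rw [← D_zero]
  unfold D
  rw [taylor_coeff_zero, add_comm z h, ← taylor_eval, eval_eq_sum_range]
  apply Finset.dvd_sum
  intro i _
  have h1 : p ^ (n / g - i) ∣ (taylor z (Q R ε n)).coeff i :=
    (pow_dvd_pow_of_dvd hp _).trans (hZ i)
  have h2 : p ^ i ∣ h ^ i := pow_dvd_pow_of_dvd hh i
  have h3 : p ^ (n / g) ∣ p ^ (n / g - i) * p ^ i := by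
    rw [← pow_add]
    exact pow_dvd_pow p (by omega)
  exact h3.trans (mul_dvd_mul h1 h2)

end Ring

end Pool.Agent.Helper191_Fac
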