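import Pool.Agent.Helper191_Fac.Final

set_option autoImplicit false

namespace Pool.Agent.Helper191_Fac

open MeasureTheory Filter Topology

attribute [local instance] mspace
attribute [local instance] bspace

/-- The beginnings of length `n` of the members of a family of 0-1 sequences. -/
def begins (F : Set (ℕ → Bool)) (n : ℕ) : Set (Fin n → Bool) :=
  (fun (ε : ℕ → Bool) => fun i : Fin n => ε i) '' F

theorem begins_closure (F : Set (ℕ → Bool)) (n : ℕ) : begins (closure F) n = begins F n := by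
  apply Set.Subset.antisymm
  · rintro _ ⟨ε, hε, rfl⟩
    have hopen : IsOpen {η : ℕ → Bool | ∀ i : Fin n, η i = ε i} := by
      have : {η : ℕ → Bool | ∀ i : Fin n, η i = ε i} = ⋂ i : Fin n, {η | η i = ε i} := by
        ext η
        simp
      rw [this]
      apply isOpen_iInter_of_finite
      intro i
      have hc : Continuous (fun η : ℕ → Bool => η i) := continuous_apply _
      exact (isOpen_discrete ({ε i} : Set Bool)).preimage hc
    rw [mem_closure_iff] at hε
    obtain ⟨η, h1, h2⟩ := hε _ hopen (fun i => rfl)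
    exact ⟨η, h2, funext h1⟩
  · exact Set.image_mono subset_closure

section Padic
variable (p : ℕ) [hp : Fact p.Prime]

theorem pow_dvd_factorial (r : ℕ) : p ^ ((p ^ r - 1) / (p - 1)) ∣ (p ^ r).factorial := by
  have hpr : 0 < p ^ r := pow_pos hp.out.pos r
  rw [Nat.Prime.pow_dvd_iff_le_factorization hp.out (Nat.factorial_ne_zero _),
    Nat.factorization_def _ hp.out]
  have h1 : (p - 1) * padicValNat p (p ^ r).factorial = p ^ r - (p.digits (p ^ r)).sum :=
    sub_one_mul_padicValNat_factorial (p ^ r)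
  have h2 : (p.digits (p ^ r)).sum = 1 := by
    have h3 := Nat.digits_base_pow_mul (b := p) (k := r) (m := 1) hp.out.one_lt (by norm_num)
    rw [mul_one] at h3
    rw [h3, List.sum_append, List.sum_replicate]
    rw [Nat.digits_of_lt p 1 (by norm_num) hp.out.one_lt]
    simp
  rw [h2] at h1
  have hp1 : 0 < p - 1 := by
    have := hp.out.two_le
    omega
  rw [← h1, Nat.mul_div_cancel_left _ hp1]

omit hp in
theorem sub_one_mul_geom (r : ℕ) : (p - 1) * ((p ^ r - 1) / (p - 1)) = p ^ r - 1 := by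
  apply Nat.mul_div_cancel'
  have := Nat.sub_dvd_pow_sub_pow p 1 r
  simpa using this

/-- Choice of a block length. -/
theorem exists_block (lam : ℝ) (h0 : 0 ≤ lam) (hlam : lam ^ (p - 1) < p) :
    ∃ g L : ℕ, 0 < g ∧ 0 < L ∧ p ^ L ∣ g.factorial ∧ lam ^ g < (p : ℝ) ^ L := by
  have hp2 := hp.out.two_le
  have hp0 : (0 : ℝ) < p := by exact_mod_cast hp.out.pos
  have hp1 : (1 : ℝ) < p := by exact_mod_cast hp.out.one_lt
  set ρ := lam ^ (p - 1) / p with hρ
  have hρ0 : 0 ≤ ρ := by positivity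
  have hρ1 : ρ < 1 := (div_lt_one hp0).mpr hlam
  obtain ⟨n, hn⟩ := exists_pow_lt_of_lt_one (inv_pos.mpr hp0) hρ1
  -- take r with p ^ r ≥ n
  set r := n + 1 with hr
  have hrn : n ≤ p ^ r := by
    have h1 : r < p ^ r := Nat.lt_pow_self hp.out.one_lt
    omega
  refine ⟨p ^ r, (p ^ r - 1) / (p - 1), pow_pos hp.out.pos r, ?_, pow_dvd_factorial p r, ?_⟩
  · apply Nat.div_pos _ (by omega)
    have : p ≤ p ^ r := by
      calc p = p ^ 1 := (pow_one p).symm
        _ ≤ p ^ r := Nat.pow_le_pow_right hp.out.pos (by omega)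
    omega
  · have h1 : ρ ^ (p ^ r) < (p : ℝ)⁻¹ :=
      lt_of_le_of_lt (pow_le_pow_of_le_one hρ0 hρ1.le hrn) hn
    rw [hρ, div_pow, div_lt_iff₀ (by positivity), ← pow_mul] at h1
    -- lam ^ ((p-1) g) < p ^ (g-1)
    have h2 : (p : ℝ)⁻¹ * p ^ (p ^ r) = p ^ (p ^ r - 1) := by
      have e : (p : ℝ) ^ (p ^ r) = p ^ (p ^ r - 1) * p := by
        rw [← pow_succ]
        congr 1
        have : 0 < p ^ r := pow_pos hp.out.pos r
        omega
      rw [e]
      field_simp
    rw [h2, ← sub_one_mul_geom p r, mul_comm (p - 1) (p ^ r), pow_mul,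
      mul_comm (p - 1) ((p ^ r - 1) / (p - 1)), pow_mul] at h1
    exact lt_of_pow_lt_pow_left₀ (p - 1) (by positivity) h1

theorem sparse_null (F : Set (ℕ → Bool)) (C lam : ℝ) (h0 : 0 ≤ lam) (hlam : lam ^ (p - 1) < p)
    (hF : ∀ n, ((begins F n).ncard : ℝ) ≤ C * lam ^ n) :
    haar p {z : ℤ_[p] | ∃ ε ∈ F, Wit p (ε, z)} = 0 := by
  obtain ⟨g, L, hg, hL0, hfac, hgL⟩ := exists_block p lam h0 hlam
  have hL := pow_dvd_asc_of_factorial p hfac
  set X : ℕ → ℕ → ℕ → Set ((ℕ → Bool) × ℤ_[p]) :=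
    fun κ m c => {x | Piece p g L (κ + 1) m c x ∧ x.1 ∈ F} with hX
  have hsub : {z : ℤ_[p] | ∃ ε ∈ F, Wit p (ε, z)} ⊆
      ⋃ κ : ℕ, ⋃ m : ℕ, ⋃ c : ℕ, Prod.snd '' X κ m c := by
    rintro z ⟨ε, hεF, hε⟩
    obtain ⟨k, m, c, hk, hpc⟩ := exists_piece p g L hg hL0 hL (ε, z) hε
    simp only [Set.mem_iUnion]
    refine ⟨k - 1, m, c, (ε, z), ⟨?_, hεF⟩, rfl⟩
    rwa [Nat.sub_add_cancel hk]
  refine measure_mono_null hsub ?_
  simp only [measure_iUnion_null_iff]
  intro κ m c
  apply null_of_growth p (g := g) (L := L) hg (fun x hx => hx.1) C (lam ^ g) (by positivity) hgL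
  intro q
  have h1 : (pref p (X κ m c) (g * q)).ncard ≤ (begins F (g * q)).ncard := by
    apply Set.ncard_le_ncard
    · rintro _ ⟨x, hx, rfl⟩
      exact ⟨x.1, hx.2, rfl⟩
    · exact Set.toFinite _
  calc ((pref p (X κ m c) (g * q)).ncard : ℝ) ≤ ((begins F (g * q)).ncard : ℝ) := by
        exact_mod_cast h1
    _ ≤ C * lam ^ (g * q) := hF _
    _ = C * (lam ^ g) ^ q := by rw [pow_mul]

theorem sparse_density (F : Set (ℕ → Bool)) (C lam : ℝ) (h0 : 0 ≤ lam)
    (hlam : lam ^ (p - 1) < p) (hF : ∀ n, ((begins F n).ncard : ℝ) ≤ C * lam ^ n) :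
    Tendsto (fun N : ℕ => ((({a : ℕ | 1 ≤ a ∧ a ≤ N ∧ ∃ u : ℕ → ℕ, StrictMono u ∧ u 0 = a ∧
      (∃ ε ∈ F, ∀ i, ε i = true ↔ ∃ j, u j = u 0 + i) ∧
      Tendsto (fun n => padicValNat p (∑ i ∈ Finset.range (n + 1), (u i).factorial))
        atTop atTop}).ncard : ℕ) : ℝ) / N) atTop (𝓝 0) := by
  have hK := isCompact_proj p (closure F) isClosed_closure
  have h1 : haar p {z : ℤ_[p] | ∃ ε ∈ closure F, Wit p (ε, z)} = 0 :=
    sparse_null p (closure F) C lam h0 hlam (fun n => by rw [begins_closure]; exact hF n)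
  exact density_of_subset p _ hK h1
    {a : ℕ | ∃ u : ℕ → ℕ, StrictMono u ∧ u 0 = a ∧
      (∃ ε ∈ F, ∀ i, ε i = true ↔ ∃ j, u j = u 0 + i) ∧
      Tendsto (fun n => padicValNat p (∑ i ∈ Finset.range (n + 1), (u i).factorial))
        atTop atTop} (by
      rintro a ⟨u, hu, hua, ⟨ε, hεF, hε⟩, ht⟩
      have hind : ind u = ε := by
        funext i
        have h2 := ind_iff u i
        have h3 := hε i
        rcases h4 : ind u i with _ | _ <;> rcases h5 : ε i with _ | _
        · rfl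
        · rw [h4] at h2
          exact absurd (h2.mpr (h3.mp h5)) (by simp)
        · rw [h5] at h3
          exact absurd (h3.mpr (h2.mp h4)) (by simp)
        · rfl
      refine ⟨ind u, subset_closure (by rw [hind]; exact hεF), ?_⟩
      rw [← hua]
      exact wit_of_seq p u hu ht)

end Padic

end Pool.Agent.Helper191_Fac
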