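import Pool.Agent.Helper191_Fac.Final

set_option autoImplicit false

namespace Pool.Agent.Helper191_Fac

open MeasureTheory Filter Topology

attribute [local instance] mspace
attribute [local instance] bspace

section Padic
variable (p : ℕ) [hp : Fact p.Prime]

open Classical in
/-- A compact set of measure less than `δ` contains at most about `δ N` positive integers. -/
theorem density_key (K : Set ℤ_[p]) (hK : IsCompact K) (δ : ℝ) (hδ : 0 < δ)
    (h0 : haar p K < ENNReal.ofReal δ) : ∃ s : ℕ, ∀ N : ℕ,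
      (((Finset.Icc 1 N).filter (fun a => ((a : ℕ) : ℤ_[p]) ∈ K)).card : ℝ) ≤ δ * (N + p ^ s) := by
  have hreg : (haar p).OuterRegular := by
    unfold haar
    infer_instance
  obtain ⟨U, hKU, hU, hUδ⟩ := K.exists_isOpen_lt_of_lt (μ := haar p) (ENNReal.ofReal δ) h0
  obtain ⟨ρ, hρ, hρU⟩ := hK.exists_thickening_subset_open hU hKU
  obtain ⟨s, hs⟩ : ∃ s : ℕ, (p : ℝ) ^ (-(s : ℤ)) < ρ := by
    have hp1 : (1 : ℝ) < p := by exact_mod_cast hp.out.one_lt
    obtain ⟨s, hs⟩ := exists_pow_lt_of_lt_one hρ (inv_lt_one_of_one_lt₀ hp1)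
    refine ⟨s, ?_⟩
    rw [zpow_neg, zpow_natCast, ← inv_pow]
    exact hs
  refine ⟨s, ?_⟩
  set R : Finset ℕ := (Finset.range (p ^ s)).filter
    (fun c : ℕ => ∃ z ∈ K, z ∈ ball p (c : ℤ_[p]) s) with hR
  have hsub : (⋃ c ∈ R, ball p (c : ℤ_[p]) s) ⊆ U := by
    intro w hw
    simp only [Set.mem_iUnion] at hw
    obtain ⟨c, hc, hwc⟩ := hw
    rw [hR, Finset.mem_filter] at hc
    obtain ⟨_, z, hz, hzc⟩ := hc
    apply hρU
    rw [Metric.mem_thickening_iff]
    refine ⟨z, hz, lt_of_le_of_lt ?_ hs⟩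
    have h1 : w ∈ ball p z s := by
      rw [mem_ball] at hwc hzc ⊢
      have := dvd_sub hwc hzc
      rwa [sub_sub_sub_cancel_right] at this
    rw [ball_eq_closedBall, Metric.mem_closedBall] at h1
    exact h1
  have hcard : (R.card : ℝ) ≤ δ * p ^ s := by
    have h1 := haar_union p s R (fun c hc => Finset.mem_range.mp (Finset.mem_filter.mp hc).1)
    have h2 : haar p (⋃ c ∈ R, ball p (c : ℤ_[p]) s) ≤ ENNReal.ofReal δ :=
      (measure_mono hsub).trans hUδ.le
    rw [h1, haar_ball] at h2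
    have hpne : ((p : ENNReal) ^ s) ≠ 0 := pow_ne_zero _ (by exact_mod_cast hp.out.ne_zero)
    have hptop : ((p : ENNReal) ^ s) ≠ ⊤ := ENNReal.pow_ne_top (ENNReal.natCast_ne_top p)
    rw [← div_eq_mul_inv, ENNReal.div_le_iff hpne hptop] at h2
    have h3 : (R.card : ENNReal) ≤ ENNReal.ofReal (δ * p ^ s) := by
      rw [ENNReal.ofReal_mul hδ.le]
      convert h2 using 2
      rw [ENNReal.ofReal_pow (by positivity), ENNReal.ofReal_natCast]
    rw [← ENNReal.ofReal_natCast] at h3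
    exact (ENNReal.ofReal_le_ofReal_iff (by positivity)).mp h3
  intro N
  have hsub2 : (Finset.Icc 1 N).filter (fun a => ((a : ℕ) : ℤ_[p]) ∈ K) ⊆
      R.biUnion (fun c => (Finset.Icc 1 N).filter (fun a => a ≡ c [MOD p ^ s])) := by
    intro a ha
    rw [Finset.mem_filter] at ha
    rw [Finset.mem_biUnion]
    have hpos : 0 < p ^ s := pow_pos hp.out.pos s
    refine ⟨a % p ^ s, ?_, ?_⟩
    · rw [hR, Finset.mem_filter]
      refine ⟨Finset.mem_range.mpr (Nat.mod_lt _ hpos), a, ha.2, ?_⟩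
      rw [mem_ball]
      refine ⟨((a / p ^ s : ℕ) : ℤ_[p]), ?_⟩
      have := Nat.div_add_mod a (p ^ s)
      have h2 : (a : ℤ_[p]) = (p : ℤ_[p]) ^ s * ((a / p ^ s : ℕ) : ℤ_[p]) +
          ((a % p ^ s : ℕ) : ℤ_[p]) := by
        exact_mod_cast this.symm
      rw [sub_eq_iff_eq_add]
      exact h2
    · rw [Finset.mem_filter]
      exact ⟨ha.1, (Nat.mod_modEq a (p ^ s)).symm⟩
  have hle : ((Finset.Icc 1 N).filter (fun a => ((a : ℕ) : ℤ_[p]) ∈ K)).card ≤
      R.card * (N / p ^ s + 1) := by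
    refine (Finset.card_le_card hsub2).trans (Finset.card_biUnion_le.trans ?_)
    refine (Finset.sum_le_sum (fun c _ => count_class (p ^ s) c N)).trans ?_
    rw [Finset.sum_const, smul_eq_mul]
  have hle2 : (((Finset.Icc 1 N).filter (fun a => ((a : ℕ) : ℤ_[p]) ∈ K)).card : ℝ) ≤
      R.card * (N / p ^ s + 1) := by
    have h1 : (((N / p ^ s : ℕ)) : ℝ) ≤ (N : ℝ) / (p : ℝ) ^ s := by
      have := @Nat.cast_div_le ℝ _ _ _ N (p ^ s)
      simpa using this
    calc (((Finset.Icc 1 N).filter (fun a => ((a : ℕ) : ℤ_[p]) ∈ K)).card : ℝ)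
        ≤ ((R.card * (N / p ^ s + 1) : ℕ) : ℝ) := by exact_mod_cast hle
      _ = R.card * (((N / p ^ s : ℕ) : ℝ) + 1) := by push_cast; ring
      _ ≤ R.card * (N / p ^ s + 1) := by gcongr
  have hps : (0 : ℝ) < (p : ℝ) ^ s := pow_pos (by exact_mod_cast hp.out.pos) s
  calc (((Finset.Icc 1 N).filter (fun a => ((a : ℕ) : ℤ_[p]) ∈ K)).card : ℝ)
      ≤ R.card * (N / p ^ s + 1) := hle2
    _ ≤ (δ * p ^ s) * (N / p ^ s + 1) := by gcongr
    _ = δ * (N + p ^ s) := by field_simp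

/-- Pairs which are witnesses up to the precision `p ^ (-V)`. -/
def AWit (V : ℕ) (x : (ℕ → Bool) × ℤ_[p]) : Prop :=
  x.1 0 = true ∧ ∀ n, ‖S x.1 n x.2‖ ≤ max ‖asc x.2 n‖ ((p : ℝ) ^ (-(V : ℤ)))

theorem isClosed_awit (V : ℕ) : IsClosed {x : (ℕ → Bool) × ℤ_[p] | AWit p V x} := by
  have h1 : {x : (ℕ → Bool) × ℤ_[p] | AWit p V x} =
      ({x | x.1 0 = true} ∩
        ⋂ n, {x | ‖S x.1 n x.2‖ ≤ max ‖asc x.2 n‖ ((p : ℝ) ^ (-(V : ℤ)))}) := by
    ext x
    simp only [AWit, Set.mem_ofPred_eq, Set.mem_inter_iff, Set.mem_iInter]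
  rw [h1]
  refine IsClosed.inter ?_ (isClosed_iInter fun n => ?_)
  · exact isClosed_eq ((continuous_apply 0).comp continuous_fst) continuous_const
  · exact isClosed_le (continuous_S p n).norm
      (((continuous_asc p n).comp continuous_snd).norm.max continuous_const)

/-- The set of starting points with a witness up to the precision `p ^ (-V)`. -/
def YY (V : ℕ) : Set ℤ_[p] := {z : ℤ_[p] | ∃ ε : ℕ → Bool, AWit p V (ε, z)}

theorem isCompact_YY (V : ℕ) : IsCompact (YY p V) := by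
  have h1 : YY p V = Prod.snd '' {x : (ℕ → Bool) × ℤ_[p] | AWit p V x} := by
    ext z
    constructor
    · rintro ⟨ε, h⟩
      exact ⟨(ε, z), h, rfl⟩
    · rintro ⟨x, h, rfl⟩
      exact ⟨x.1, h⟩
  rw [h1]
  exact (isClosed_awit p V).isCompact.image continuous_snd

theorem awit_anti {V V' : ℕ} (h : V ≤ V') (x : (ℕ → Bool) × ℤ_[p]) (hx : AWit p V' x) :
    AWit p V x := by
  refine ⟨hx.1, fun n => (hx.2 n).trans (max_le_max le_rfl ?_)⟩
  apply zpow_le_zpow_right₀ (by exact_mod_cast hp.out.one_lt.le)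
  omega

theorem YY_anti : Antitone (YY p) := by
  intro V V' h z hz
  obtain ⟨ε, hε⟩ := hz
  exact ⟨ε, awit_anti p h _ hε⟩

theorem iInter_YY : (⋂ V, YY p V) ⊆ {z : ℤ_[p] | ∃ ε, Wit p (ε, z)} := by
  intro z hz
  rw [Set.mem_iInter] at hz
  set C : ℕ → Set (ℕ → Bool) := fun V => {ε | AWit p V (ε, z)} with hC
  have hclosed : ∀ V, IsClosed (C V) := by
    intro V
    exact (isClosed_awit p V).preimage (Continuous.prodMk continuous_id continuous_const)
  obtain ⟨ε, hε⟩ : (⋂ V, C V).Nonempty := by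
    apply IsCompact.nonempty_iInter_of_directed_nonempty_isCompact_isClosed
    · intro V V'
      refine ⟨max V V', ?_, ?_⟩
      · intro ε hε
        exact awit_anti p (le_max_left _ _) _ hε
      · intro ε hε
        exact awit_anti p (le_max_right _ _) _ hε
    · exact hz
    · intro V
      exact (hclosed V).isCompact
    · exact hclosed
  rw [Set.mem_iInter] at hε
  refine ⟨ε, (hε 0).1, fun n => ?_⟩
  rw [dvd_iff_norm_le]
  by_contra hcon
  push Not at hcon
  change ‖asc z n‖ < ‖S ε n z‖ at hcon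
  have hpos : 0 < ‖S ε n z‖ := lt_of_le_of_lt (norm_nonneg _) hcon
  have hp1 : (1 : ℝ) < p := by exact_mod_cast hp.out.one_lt
  obtain ⟨V, hV⟩ := exists_pow_lt_of_lt_one hpos (inv_lt_one_of_one_lt₀ hp1)
  have h1 := (hε V).2 n
  change ‖S ε n z‖ ≤ max ‖asc z n‖ ((p : ℝ) ^ (-(V : ℤ))) at h1
  rw [zpow_neg, zpow_natCast, ← inv_pow] at h1
  have h2 : max ‖asc z n‖ ((p : ℝ)⁻¹ ^ V) < ‖S ε n z‖ := max_lt hcon hV
  exact absurd h1 (not_le.mpr h2)

theorem YY_small (h0 : haar p {z : ℤ_[p] | ∃ ε, Wit p (ε, z)} = 0) (δ : ℝ) (hδ : 0 < δ) :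
    ∃ V, haar p (YY p V) < ENNReal.ofReal δ := by
  have h1 : haar p (⋂ V, YY p V) = 0 := measure_mono_null (iInter_YY p) h0
  have h2 : Tendsto (fun V => haar p (YY p V)) atTop (𝓝 (haar p (⋂ V, YY p V))) := by
    apply tendsto_measure_iInter_atTop
    · intro V
      exact (isCompact_YY p V).isClosed.measurableSet.nullMeasurableSet
    · exact YY_anti p
    · exact ⟨0, measure_ne_top _ _⟩
  rw [h1] at h2
  have h3 := (tendsto_order.mp h2).2 (ENNReal.ofReal δ) (ENNReal.ofReal_pos.mpr hδ)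
  exact h3.exists

/-- A finite set whose sum of factorials is very divisible gives a witness up to a precision. -/
theorem awit_of_finset (a V : ℕ) (A : Finset ℕ) (haA : a ∈ A) (hA : ∀ x ∈ A, a ≤ x)
    (hdvd : p ^ (padicValNat p a.factorial + V) ∣ ∑ x ∈ A, x.factorial) :
    ((a : ℕ) : ℤ_[p]) ∈ YY p V := by
  classical
  refine ⟨fun i => decide (a + i ∈ A), ?_, fun n => ?_⟩
  · simp [haA]
  set ε : ℕ → Bool := fun i => decide (a + i ∈ A) with hε
  change ‖S ε n (a : ℤ_[p])‖ ≤ max ‖asc (a : ℤ_[p]) n‖ ((p : ℝ) ^ (-(V : ℤ)))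
  -- the full sum
  have hfull : ∃ T : ℤ_[p], ∑ x ∈ A, ((x.factorial : ℕ) : ℤ_[p])
      = ((a.factorial : ℕ) : ℤ_[p]) * T ∧ ‖T‖ ≤ (p : ℝ) ^ (-(V : ℤ)) ∧
        ∃ U : ℤ_[p], T = S ε n (a : ℤ_[p]) + asc (a : ℤ_[p]) n * U := by
    have hterm : ∀ x ∈ A, ((x.factorial : ℕ) : ℤ_[p])
        = ((a.factorial : ℕ) : ℤ_[p]) * asc (a : ℤ_[p]) (x - a) := by
      intro x hx
      rw [factorial_mul_asc, Nat.add_sub_cancel' (hA x hx)]
    refine ⟨∑ x ∈ A, asc (a : ℤ_[p]) (x - a), ?_, ?_, ?_⟩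
    · rw [Finset.mul_sum]
      exact Finset.sum_congr rfl hterm
    · have h1 : (((a.factorial : ℕ) : ℤ_[p]) * ∑ x ∈ A, asc (a : ℤ_[p]) (x - a))
          = ((∑ x ∈ A, x.factorial : ℕ) : ℤ_[p]) := by
        rw [Finset.mul_sum, Nat.cast_sum]
        exact Finset.sum_congr rfl fun x hx => (hterm x hx).symm
      have h2 : (p : ℤ_[p]) ^ (padicValNat p a.factorial + V) ∣
          ((a.factorial : ℕ) : ℤ_[p]) * ∑ x ∈ A, asc (a : ℤ_[p]) (x - a) := by
        rw [h1]
        exact_mod_cast Nat.cast_dvd_cast (α := ℤ_[p]) hdvd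
      obtain ⟨m', hm'⟩ : p ^ padicValNat p a.factorial ∣ a.factorial := pow_padicValNat_dvd
      have hcop : ¬ p ∣ m' := by
        intro h
        have : p ^ (padicValNat p a.factorial + 1) ∣ a.factorial := by
          conv_rhs => rw [hm']
          rw [pow_succ]
          exact mul_dvd_mul_left _ h
        exact pow_succ_padicValNat_not_dvd (Nat.factorial_ne_zero a) this
      have hm2 : ((a.factorial : ℕ) : ℤ_[p]) = (p : ℤ_[p]) ^ padicValNat p a.factorial
          * (m' : ℤ_[p]) := by exact_mod_cast congrArg (Nat.cast (R := ℤ_[p])) hm'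
      rw [hm2, pow_add, mul_assoc] at h2
      have hpne : (p : ℤ_[p]) ^ padicValNat p a.factorial ≠ 0 :=
        pow_ne_zero _ (by exact_mod_cast hp.out.ne_zero)
      have h3 := (mul_dvd_mul_iff_left hpne).mp h2
      have hunit : IsUnit (m' : ℤ_[p]) := by
        rw [PadicInt.isUnit_iff]
        have h4 : ‖((m' : ℤ) : ℤ_[p])‖ = 1 := by
          by_contra hne
          have hlt : ‖((m' : ℤ) : ℤ_[p])‖ < 1 := lt_of_le_of_ne (PadicInt.norm_le_one _) hne
          rw [PadicInt.norm_int_lt_one_iff_dvd] at hlt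
          exact hcop (by exact_mod_cast hlt)
        simpa using h4
      have h5 : (p : ℤ_[p]) ^ V ∣ ∑ x ∈ A, asc (a : ℤ_[p]) (x - a) :=
        (hunit.dvd_mul_left).mp h3
      rw [PadicInt.norm_le_pow_iff_mem_span_pow, Ideal.mem_span_singleton]
      exact h5
    · rw [← Finset.sum_filter_add_sum_filter_not A (fun x => x - a < n)]
      have h1 : ∑ x ∈ A.filter (fun x => x - a < n), asc (a : ℤ_[p]) (x - a)
          = S ε n (a : ℤ_[p]) := by
        unfold S
        rw [← Finset.sum_filter]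
        apply Finset.sum_nbij (fun x => x - a)
        · intro x hx
          rw [Finset.mem_filter] at hx ⊢
          refine ⟨Finset.mem_range.mpr hx.2, ?_⟩
          rw [hε]
          simp only [decide_eq_true_eq]
          rw [Nat.add_sub_cancel' (hA x hx.1)]
          exact hx.1
        · intro x hx y hy hxy
          rw [Finset.mem_coe, Finset.mem_filter] at hx hy
          have h2 := hA x hx.1
          have h3 := hA y hy.1
          have h4 : x - a = y - a := hxy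
          omega
        · intro i hi
          rw [Finset.mem_coe, Finset.mem_filter, Finset.mem_range] at hi
          rw [hε] at hi
          simp only [decide_eq_true_eq] at hi
          refine ⟨a + i, ?_, ?_⟩
          · rw [Finset.mem_coe, Finset.mem_filter]
            exact ⟨hi.2, by omega⟩
          · change a + i - a = i
            omega
        · intro x _
          rfl
      have h2 : asc (a : ℤ_[p]) n ∣
          ∑ x ∈ A.filter (fun x => ¬ x - a < n), asc (a : ℤ_[p]) (x - a) := by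
        apply Finset.dvd_sum
        intro x hx
        rw [Finset.mem_filter, not_lt] at hx
        have e : x - a = n + (x - a - n) := by omega
        rw [e, asc_add]
        exact dvd_mul_right _ _
      obtain ⟨U, hU⟩ := h2
      exact ⟨U, by rw [h1, hU]⟩
  obtain ⟨T, _, hT, U, hU⟩ := hfull
  have h1 : S ε n (a : ℤ_[p]) = T + (- (asc (a : ℤ_[p]) n * U)) := by rw [hU]; ring
  rw [h1]
  refine (PadicInt.nonarchimedean _ _).trans ?_
  rw [norm_neg, norm_mul]
  apply max_le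
  · exact hT.trans (le_max_right _ _)
  · exact (mul_le_of_le_one_right (norm_nonneg _) (PadicInt.norm_le_one U)).trans (le_max_left _ _)

theorem tight (h0 : haar p {z : ℤ_[p] | ∃ ε, Wit p (ε, z)} = 0) (ψ : ℕ → ℕ)
    (hψ : Tendsto ψ atTop atTop) :
    Tendsto (fun N : ℕ => ((({a : ℕ | 1 ≤ a ∧ a ≤ N ∧ ∃ A : Finset ℕ, a ∈ A ∧ (∀ x ∈ A, a ≤ x) ∧
      p ^ (padicValNat p a.factorial + ψ a) ∣ ∑ x ∈ A, x.factorial}).ncard : ℕ) : ℝ) / N)
      atTop (𝓝 0) := by
  classical
  rw [Metric.tendsto_atTop]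
  intro η hη
  obtain ⟨V, hV⟩ := YY_small p h0 (η / 4) (by positivity)
  obtain ⟨s, hs⟩ := density_key p (YY p V) (isCompact_YY p V) (η / 4) (by positivity) hV
  obtain ⟨B, hB⟩ := (tendsto_atTop.mp hψ V).exists_forall_of_atTop
  obtain ⟨N₁, hN₁⟩ := exists_nat_gt (4 * (B : ℝ) / η)
  refine ⟨max (p ^ s + 1) (N₁ + 1), fun N hN => ?_⟩
  have hNs : p ^ s + 1 ≤ N := (le_max_left _ _).trans hN
  have hNB : N₁ + 1 ≤ N := (le_max_right _ _).trans hN
  have hNpos : (0 : ℝ) < N := by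
    have : 0 < N := by omega
    exact_mod_cast this
  rw [Real.dist_eq, sub_zero, abs_of_nonneg (by positivity), div_lt_iff₀ hNpos]
  have hsub : {a : ℕ | 1 ≤ a ∧ a ≤ N ∧ ∃ A : Finset ℕ, a ∈ A ∧ (∀ x ∈ A, a ≤ x) ∧
      p ^ (padicValNat p a.factorial + ψ a) ∣ ∑ x ∈ A, x.factorial} ⊆
      (((Finset.Icc 1 N).filter (fun a => ((a : ℕ) : ℤ_[p]) ∈ YY p V) ∪ Finset.range B :
        Finset ℕ) : Set ℕ) := by
    rintro a ⟨ha1, ha2, A, haA, hA, hdvd⟩
    rw [Finset.mem_coe, Finset.mem_union]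
    by_cases haB : a < B
    · right
      exact Finset.mem_range.mpr haB
    · left
      rw [Finset.mem_filter, Finset.mem_Icc]
      refine ⟨⟨ha1, ha2⟩, ?_⟩
      apply awit_of_finset p a V A haA hA
      refine (pow_dvd_pow p ?_).trans hdvd
      have := hB a (by omega)
      omega
  have h1 := Set.ncard_le_ncard hsub (Finset.finite_toSet _)
  rw [Set.ncard_coe_finset] at h1
  have h2 := h1.trans (Finset.card_union_le _ _)
  rw [Finset.card_range] at h2
  have h3 : (({a : ℕ | 1 ≤ a ∧ a ≤ N ∧ ∃ A : Finset ℕ, a ∈ A ∧ (∀ x ∈ A, a ≤ x) ∧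
      p ^ (padicValNat p a.factorial + ψ a) ∣ ∑ x ∈ A, x.factorial}.ncard : ℕ) : ℝ)
      ≤ (((Finset.Icc 1 N).filter (fun a => ((a : ℕ) : ℤ_[p]) ∈ YY p V)).card : ℝ) + B := by
    exact_mod_cast h2
  have h4 := hs N
  have h5 : ((p : ℝ) ^ s) ≤ N := by
    have : p ^ s ≤ N := by omega
    exact_mod_cast this
  have h6 : (B : ℝ) < η / 4 * N := by
    have h7 : (N₁ : ℝ) ≤ N := by
      have : N₁ ≤ N := by omega
      exact_mod_cast this
    have h8 : 4 * (B : ℝ) / η < N := lt_of_lt_of_le hN₁ h7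
    rw [div_lt_iff₀ hη] at h8
    linarith
  nlinarith

end Padic

/-- For almost all `a`, no finite sum of distinct factorials with least term `a!` is divisible by
`2 ^ (v_2(a!) + ψ a)`. -/
theorem tight_two (ψ : ℕ → ℕ) (hψ : Tendsto ψ atTop atTop) :
    Tendsto (fun N : ℕ => ((({a : ℕ | 1 ≤ a ∧ a ≤ N ∧ ∃ A : Finset ℕ, a ∈ A ∧ (∀ x ∈ A, a ≤ x) ∧
      2 ^ (padicValNat 2 a.factorial + ψ a) ∣ ∑ x ∈ A, x.factorial}).ncard : ℕ) : ℝ) / N)
      atTop (𝓝 0) := by
  have := tight 2 two_null ψ hψ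
  exact this

end Pool.Agent.Helper191_Fac
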