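import Pool.Agent.Helper191_Fac.Null

set_option autoImplicit false

namespace Pool.Agent.Helper191_Fac

open MeasureTheory Filter Topology

section Padic
variable (p : ℕ) [hp : Fact p.Prime]

theorem dvd_pow_of_not_dvd {t : ℕ} {x : ℤ_[p]} (h : ¬ (p : ℤ_[p]) ^ t ∣ x) :
    x ∣ (p : ℤ_[p]) ^ t := by
  have hne : x ≠ 0 := by
    rintro rfl
    exact h (dvd_zero _)
  have hlt : x.valuation < t := by
    by_contra hge
    push Not at hge
    apply h
    rw [← Ideal.mem_span_singleton, PadicInt.mem_span_pow_iff_le_valuation x hne]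
    exact hge
  have hspec := PadicInt.unitCoeff_spec hne
  rw [hspec]
  rw [IsUnit.mul_left_dvd (PadicInt.unitCoeff hne).isUnit]
  exact pow_dvd_pow _ hlt.le

theorem asc_nat {R : Type*} [CommRing R] (a n : ℕ) :
    asc (a : R) n = (((a + 1).ascFactorial n : ℕ) : R) := by
  induction n with
  | zero => simp [asc_zero]
  | succ n ih =>
    rw [asc_succ, ih, Nat.ascFactorial_succ]
    push_cast
    ring

theorem asc_pert {z h : ℤ_[p]} {n : ℕ} (H : ∀ j < n, (p : ℤ_[p]) * (z + ((j : ℤ_[p]) + 1)) ∣ h) :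
    ∃ w, asc (z + h) n = asc z n * (1 + p * w) := by
  induction n with
  | zero => exact ⟨0, by simp [asc_zero]⟩
  | succ n ih =>
    obtain ⟨w, hw⟩ := ih (fun j hj => H j (by omega))
    obtain ⟨q, hq⟩ := H n (by omega)
    refine ⟨w + q + p * w * q, ?_⟩
    rw [asc_succ, asc_succ, hw]
    rw [show z + h + ((n : ℤ_[p]) + 1) = (z + ((n : ℤ_[p]) + 1)) * (1 + p * q) by
      conv_lhs => rw [hq]
      ring]
    ring

theorem isUnit_one_add (w : ℤ_[p]) : IsUnit (1 + (p : ℤ_[p]) * w) := by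
  by_contra h
  rw [PadicInt.not_isUnit_iff, PadicInt.norm_lt_one_iff_dvd] at h
  have h1 : (p : ℤ_[p]) ∣ 1 := by
    have h2 : (p : ℤ_[p]) ∣ p * w := Dvd.intro w rfl
    exact (dvd_add_left h2).mp h
  exact PadicInt.prime_p.not_isUnit (isUnit_of_dvd_one h1)

end Padic

/-- No factor of index below `8 * t` is divisible by `2 ^ t`, for `t ≥ T`. -/
def Gen (T : ℕ) (z : ℤ_[2]) : Prop :=
  ∀ t, T ≤ t → ∀ j < 8 * t, ¬ (2 : ℤ_[2]) ^ t ∣ z + ((j : ℤ_[2]) + 1)

theorem Gen.factor {T : ℕ} {z : ℤ_[2]} (hz : Gen T z) {n : ℕ} (hn : 8 * T ≤ n) {j : ℕ}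
    (hj : j < n) : ¬ (2 : ℤ_[2]) ^ (n / 8 + 1) ∣ z + ((j : ℤ_[2]) + 1) :=
  hz (n / 8 + 1) (by omega) j (by omega)

theorem asc_dvd_pow {T : ℕ} {z : ℤ_[2]} (hz : Gen T z) {n : ℕ} (hn : 8 * T ≤ n) :
    asc z n ∣ (2 : ℤ_[2]) ^ (n + n / 8 + 4) := by
  set t := n / 8 + 1 with ht
  set a := z.appr t with ha
  have hat : a < 2 ^ t := PadicInt.appr_lt z t
  have haz : (2 : ℤ_[2]) ^ t ∣ z - a := by
    have := PadicInt.appr_spec t z
    rwa [Ideal.mem_span_singleton] at this
  have h1 : asc z n ∣ asc (a : ℤ_[2]) n := by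
    unfold asc
    apply Finset.prod_dvd_prod_of_dvd
    intro j hj
    have h2 := hz.factor hn (Finset.mem_range.mp hj)
    rw [← ht] at h2
    have h3 : z + ((j : ℤ_[2]) + 1) ∣ (2 : ℤ_[2]) ^ t := by
      have := dvd_pow_of_not_dvd 2 (t := t) (x := z + ((j : ℤ_[2]) + 1)) (by exact_mod_cast h2)
      exact_mod_cast this
    have h4 : (a : ℤ_[2]) + ((j : ℤ_[2]) + 1) = (z + ((j : ℤ_[2]) + 1)) - (z - a) := by ring
    rw [h4]
    exact dvd_sub (dvd_refl _) (h3.trans haz)
  refine h1.trans ?_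
  rw [asc_nat]
  have h5 : ¬ 2 ^ (n + n / 8 + 4) ∣ (a + 1).ascFactorial n := by
    rw [Nat.ascFactorial_eq_factorial_mul_choose]
    have hne : n.factorial * (a + n).choose n ≠ 0 :=
      mul_ne_zero n.factorial_ne_zero (Nat.choose_pos (by omega)).ne'
    rw [Nat.Prime.pow_dvd_iff_le_factorization Nat.prime_two hne,
      Nat.factorization_mul n.factorial_ne_zero (Nat.choose_pos (by omega)).ne']
    rw [Finsupp.add_apply]
    have h6 : n.factorial.factorization 2 ≤ n := by
      have := Nat.factorization_factorial_le_div_pred Nat.prime_two n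
      simpa using this
    have h7 : ((a + n).choose n).factorization 2 ≤ Nat.log 2 (a + n) :=
      Nat.factorization_choose_le_log
    have h8 : Nat.log 2 (a + n) < n / 8 + 4 := by
      apply Nat.log_lt_of_lt_pow' (by omega)
      have h10 : n < 8 * t := by omega
      have h11 : ∀ m : ℕ, 2 * m ≤ 2 ^ m := by
        intro m
        induction m with
        | zero => simp
        | succ m ih =>
          have := Nat.one_le_two_pow (n := m)
          rcases Nat.eq_zero_or_pos m with h | h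
          · subst h; norm_num
          · rw [pow_succ]
            omega
      have h12 := h11 t
      have h13 : n / 8 + 4 = t + 3 := by omega
      rw [h13, pow_add]
      have : 1 ≤ 2 ^ t := Nat.one_le_two_pow
      omega
    omega
  have h6 := dvd_pow_of_not_dvd 2 (t := n + n / 8 + 4)
    (x := (((a + 1).ascFactorial n : ℕ) : ℤ_[2])) (by
      intro h7
      apply h5
      have h8 := (PadicInt.pow_p_dvd_int_iff (p := 2) (n + n / 8 + 4)
        (((a + 1).ascFactorial n : ℕ) : ℤ)).mp (by exact_mod_cast h7)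
      exact_mod_cast h8)
  exact_mod_cast h6

theorem Gen.asc_ne_zero {T : ℕ} {z : ℤ_[2]} (hz : Gen T z) {n : ℕ} (hn : 8 * T ≤ n) :
    asc z n ≠ 0 := by
  intro h
  have := asc_dvd_pow hz hn
  rw [h, zero_dvd_iff] at this
  exact pow_ne_zero _ two_ne_zero this

/-- The products at two nearby points differ by a factor congruent to one. -/
theorem Gen.pert {T : ℕ} {z z' : ℤ_[2]} (hz : Gen T z) {n : ℕ} (hn : 8 * T ≤ n)
    (h : (2 : ℤ_[2]) ^ (n / 8 + 2) ∣ z' - z) : ∃ w, asc z' n = asc z n * (1 + 2 * w) := by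
  have := asc_pert 2 (z := z) (h := z' - z) (n := n) (by
    intro j hj
    have h2 := hz.factor hn hj
    have h3 : z + ((j : ℤ_[2]) + 1) ∣ (2 : ℤ_[2]) ^ (n / 8 + 1) := by
      have := dvd_pow_of_not_dvd 2 (t := n / 8 + 1) (x := z + ((j : ℤ_[2]) + 1))
        (by exact_mod_cast h2)
      exact_mod_cast this
    refine dvd_trans ?_ h
    rw [show (2 : ℤ_[2]) ^ (n / 8 + 2) = 2 * 2 ^ (n / 8 + 1) by rw [← pow_succ']]
    push_cast
    exact mul_dvd_mul_left _ h3)
  rw [add_sub_cancel] at this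
  exact_mod_cast this

end Pool.Agent.Helper191_Fac
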